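import Mathlib

/-!
# BKa: leaves of a family of separating sets in a finite graph (Burton-Keane argument, part 1; est. 180 lines)

`A` is a symmetric relation (adjacency) on the finite set `X`; `JA A S x y`: `x` and `y` are joined by a path inside `S`.
Basic facts on `JA`: symmetric (`symm`), transitive, monotone in `S`; if `x ∈ S` and `JA A S x y` then `y ∈ S`.
For `x ∉ B i` write `C i x = {w | JA A (B i)ᶜ x w}` (the component of `x` in the complement of `B i`).

PROOF of `exists_leaf`.
(F1) For `j ≠ i` all elements of `B j` are joined in `(B i)ᶜ` (`bconn`, `disj`, monotonicity); so `B j` is contained in the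
component `C i y`, `y ∈ B j`, or disjoint from a given component `C i x`.
(F0) If `x ∉ B i`, there is `y ∈ C i x` and `z ∈ B i` with `A y z` (take a path from `x` to an element of `B i` (`conn`, `ne`) and its
first step that enters `B i`: induction on the path: the current dart is in `C i x` until then).
(F2) If `x ∉ B i`, `j ≠ i` and `C i x` is disjoint from `B j`, then for every `w ∈ B j`... take `z ∈ B i`: the set `C i x ∪ B i` is
contained in the component `C j z`: elements of `B i` are joined to `z` in `(B j)ᶜ` by (F1); `C i x` is disjoint from `B j`, its elements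
are joined to each other inside `C i x ⊆ (B j)ᶜ` (a path inside `(B i)ᶜ` starting in `C i x` stays in `C i x`), and by (F0) one of them
is adjacent to an element of `B i`.
If `I'` has one element `i`: take the first two of the three points given by `three`; the condition on `k` is empty.
Otherwise choose `(i, j)` in `I' × I'`, `i ≠ j`, for which the component of `(B i)ᶜ` which contains `B j` has maximal cardinality
(`Finset.exists_max_image` on `(I' ×ˢ I').filter (·.1 ≠ ·.2)` for the function `(i, j) ↦ {w | ∃ y ∈ B j, JA A (B i)ᶜ y w}.ncard`);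
call this component `C`. CLAIM: `B k ⊆ C` for every `k ∈ I'`, `k ≠ i`. Otherwise `B k` is disjoint from `C` by (F1), and by (F2) the
component of `(B k)ᶜ` which contains `B i` contains `C ∪ B i`, which has more elements than `C` because `B i` is nonempty and disjoint
from `C` (`Set.ncard_lt_ncard`, `X` finite). This contradicts maximality.
Of the three points `p 0, p 1, p 2` of `three i`, pairwise in different components, at most one is in `C`; take the other two, `p a` and
`p b`. Their components are different from `C`, hence disjoint from `C`, hence from all `B k`.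
-/

set_option autoImplicit false

namespace UIPQ

/-- `x` and `y` are joined by a path inside `S` for the relation `A` -/
def JA {X : Type} (A : X → X → Prop) (S : Set X) (x y : X) : Prop :=
  Relation.ReflTransGen (fun a b => a ∈ S ∧ b ∈ S ∧ A a b) x y

/-- a family of disjoint connected sets with three large components in their complements -/
structure BKfam {X I : Type} (A : X → X → Prop) (B : I → Set X) (K : ℕ) : Prop where
  symm : ∀ x y, A x y → A y x
  conn : ∀ x y, JA A Set.univ x y
  ne : ∀ i, (B i).Nonempty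
  bconn : ∀ i, ∀ x ∈ B i, ∀ y ∈ B i, JA A (B i) x y
  disj : ∀ i j, i ≠ j → Disjoint (B i) (B j)
  three : ∀ i, ∃ p : Fin 3 → X, (∀ a, p a ∉ B i) ∧
    (∀ a b, a ≠ b → ¬ JA A (B i)ᶜ (p a) (p b)) ∧ ∀ a, K ≤ {w | JA A (B i)ᶜ (p a) w}.ncard

theorem JA.symm {X : Type} {A : X → X → Prop} (hA : ∀ x y, A x y → A y x) {S : Set X} {x y : X}
    (h : JA A S x y) : JA A S y x := by
  unfold JA at h ⊢
  induction h with
  | refl => exact Relation.ReflTransGen.refl
  | tail _ h ih =>
    exact Relation.ReflTransGen.trans (Relation.ReflTransGen.single ⟨h.2.1, h.1, hA _ _ h.2.2⟩) ih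

theorem JA.mono {X : Type} {A : X → X → Prop} {S T : Set X} {x y : X} (h : JA A S x y)
    (hST : S ⊆ T) : JA A T x y := by
  unfold JA at h ⊢
  induction h with
  | refl => exact Relation.ReflTransGen.refl
  | tail _ h ih => exact Relation.ReflTransGen.tail ih ⟨hST h.1, hST h.2.1, h.2.2⟩

private theorem bka_trans {X : Type} {A : X → X → Prop} {S : Set X} {x y z : X} (h : JA A S x y)
    (h' : JA A S y z) : JA A S x z := Relation.ReflTransGen.trans h h'

private theorem bka_mem {X : Type} {A : X → X → Prop} {S : Set X} {x y : X} (hx : x ∈ S) (h : JA A S x y) : y ∈ S := by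
  unfold JA at h
  induction h with
  | refl => exact hx
  | tail _ h _ => exact h.2.1

/-- a path stays in the component of its first point -/
private theorem bka_comp {X : Type} {A : X → X → Prop} {S : Set X} {x y : X} (h : JA A S x y) :
    JA A {w | JA A S x w} x y := by
  have h0 : ∀ y, Relation.ReflTransGen (fun a b => a ∈ S ∧ b ∈ S ∧ A a b) x y →
      JA A {w | JA A S x w} x y := by
    intro y h
    induction h with
    | refl => exact Relation.ReflTransGen.refl
    | @tail b c hb hc ih =>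
      exact Relation.ReflTransGen.tail ih ⟨hb, Relation.ReflTransGen.tail hb hc, hc.2.2⟩
  exact h0 y h

section

variable {X I : Type} {A : X → X → Prop} {B : I → Set X} {K : ℕ}

private theorem bka_sub (h : BKfam A B K) {i j : I} (hij : j ≠ i) : B j ⊆ (B i)ᶜ :=
  fun _ hy hy' => Set.disjoint_left.1 (h.disj j i hij) hy hy'

private theorem bka_F1 (h : BKfam A B K) {i j : I} (hij : j ≠ i) {y z : X} (hy : y ∈ B j) (hz : z ∈ B j) :
    JA A (B i)ᶜ y z := (h.bconn j y hy z hz).mono (bka_sub h hij)

private theorem bka_F0 (h : BKfam A B K) (i : I) {x : X} (hx : x ∉ B i) :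
    ∃ y z, JA A (B i)ᶜ x y ∧ z ∈ B i ∧ A y z := by
  obtain ⟨z₀, hz₀⟩ := h.ne i
  have key : ∀ w, Relation.ReflTransGen (fun a b => a ∈ (Set.univ : Set X) ∧ b ∈ (Set.univ : Set X) ∧ A a b) x w →
      JA A (B i)ᶜ x w ∨ ∃ y z, JA A (B i)ᶜ x y ∧ z ∈ B i ∧ A y z := by
    intro w hw
    induction hw with
    | refl => exact Or.inl Relation.ReflTransGen.refl
    | @tail b c _ hc ih =>
      rcases ih with ih | ih
      · by_cases hcB : c ∈ B i
        · exact Or.inr ⟨b, c, ih, hcB, hc.2.2⟩
        · exact Or.inl (Relation.ReflTransGen.tail ih ⟨bka_mem (S := (B i)ᶜ) hx ih, hcB, hc.2.2⟩)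
      · exact Or.inr ih
  rcases key z₀ (h.conn x z₀) with h1 | h1
  · exact absurd hz₀ (bka_mem (S := (B i)ᶜ) hx h1)
  · exact h1

private theorem bka_F2 (h : BKfam A B K) {i j : I} (hij : i ≠ j) {x : X} (hx : x ∉ B i)
    (hd : Disjoint {w | JA A (B i)ᶜ x w} (B j)) {z : X} (hz : z ∈ B i) :
    ∀ w, (JA A (B i)ᶜ x w ∨ w ∈ B i) → JA A (B j)ᶜ z w := by
  rintro w (hw | hw)
  · obtain ⟨y, z', h1, h2, h3⟩ := bka_F0 h i hx
    have hsub : {w | JA A (B i)ᶜ x w} ⊆ (B j)ᶜ := fun a ha hb => Set.disjoint_left.1 hd ha hb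
    have e1 : JA A (B j)ᶜ z z' := bka_F1 h hij hz h2
    have e2 : JA A (B j)ᶜ z' y := Relation.ReflTransGen.single ⟨bka_sub h hij h2, hsub h1, h.symm _ _ h3⟩
    have e3 : JA A (B j)ᶜ x y := (bka_comp h1).mono hsub
    have e4 : JA A (B j)ᶜ x w := (bka_comp hw).mono hsub
    exact bka_trans e1 (bka_trans e2 (bka_trans (e3.symm h.symm) e4))
  · exact bka_F1 h hij hz hw

end

theorem exists_leaf {X I : Type} [Finite X] {A : X → X → Prop} {B : I → Set X} {K : ℕ}
    (h : BKfam A B K) (I' : Finset I) (hne : I'.Nonempty) :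
    ∃ i ∈ I', ∃ p : Fin 2 → X, (∀ a, p a ∉ B i) ∧ ¬ JA A (B i)ᶜ (p 0) (p 1) ∧
      (∀ a, K ≤ {w | JA A (B i)ᶜ (p a) w}.ncard) ∧
      ∀ a, ∀ k ∈ I', k ≠ i → Disjoint {w | JA A (B i)ᶜ (p a) w} (B k) := by
  classical
  by_cases hP : ((I' ×ˢ I').filter (fun q => q.1 ≠ q.2)).Nonempty
  · obtain ⟨⟨i, j⟩, hq, hmax⟩ := Finset.exists_max_image ((I' ×ˢ I').filter (fun q => q.1 ≠ q.2))
      (fun q => ({w | ∃ y ∈ B q.2, JA A (B q.1)ᶜ y w} : Set X).ncard) hP
    rw [Finset.mem_filter, Finset.mem_product] at hq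
    obtain ⟨⟨hi, hj⟩, hij⟩ := hq
    simp only at hi hj hij
    obtain ⟨y₀, hy₀⟩ := h.ne j
    have hy₀i : y₀ ∉ B i := bka_sub h (fun e => hij e.symm) hy₀
    have claim : ∀ k ∈ I', k ≠ i → B k ⊆ {w | JA A (B i)ᶜ y₀ w} := by
      intro k hk hki
      by_contra hc
      have hd : Disjoint {w | JA A (B i)ᶜ y₀ w} (B k) := by
        rw [Set.disjoint_left]
        intro w hw hwk
        apply hc
        intro w' hw'
        exact bka_trans hw (bka_F1 h hki hwk hw')
      obtain ⟨z, hz⟩ := h.ne i
      have h2 := bka_F2 h (fun e => hki e.symm) hy₀i hd hz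
      have h3 := hmax (k, i) (by
        rw [Finset.mem_filter, Finset.mem_product]
        exact ⟨⟨hk, hi⟩, hki⟩)
      simp only at h3
      have h4 : ({w | ∃ y ∈ B j, JA A (B i)ᶜ y w} : Set X) ⊂ {w | ∃ y ∈ B i, JA A (B k)ᶜ y w} := by
        rw [Set.ssubset_iff_of_subset]
        · refine ⟨z, ⟨z, hz, Relation.ReflTransGen.refl⟩, ?_⟩
          rintro ⟨y, hy, hyz⟩
          exact bka_mem (S := (B i)ᶜ) (bka_sub h (fun e => hij e.symm) hy) hyz hz
        · rintro w ⟨y, hy, hyw⟩
          exact ⟨z, hz, h2 w (Or.inl (bka_trans (bka_F1 h (fun e => hij e.symm) hy₀ hy) hyw))⟩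
      exact absurd (Set.ncard_lt_ncard h4 (Set.toFinite _)) (not_lt.2 h3)
    obtain ⟨p, hp1, hp2, hp3⟩ := h.three i
    have hout : ∃ a b : Fin 3, a ≠ b ∧ ¬ JA A (B i)ᶜ y₀ (p a) ∧ ¬ JA A (B i)ᶜ y₀ (p b) := by
      have h5 : ∀ a b : Fin 3, a ≠ b → JA A (B i)ᶜ y₀ (p a) → ¬ JA A (B i)ᶜ y₀ (p b) := by
        intro a b hab ha hb
        exact hp2 a b hab (bka_trans (ha.symm h.symm) hb)
      by_cases h0 : JA A (B i)ᶜ y₀ (p 0)
      · exact ⟨1, 2, by decide, h5 0 1 (by decide) h0, h5 0 2 (by decide) h0⟩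
      · by_cases h1 : JA A (B i)ᶜ y₀ (p 1)
        · exact ⟨0, 2, by decide, h0, h5 1 2 (by decide) h1⟩
        · exact ⟨0, 1, by decide, h0, h1⟩
    obtain ⟨a, b, hab, ha, hb⟩ := hout
    have hdis : ∀ c, ¬ JA A (B i)ᶜ y₀ (p c) → ∀ k ∈ I', k ≠ i → Disjoint {w | JA A (B i)ᶜ (p c) w} (B k) := by
      intro c hc k hk hki
      rw [Set.disjoint_left]
      intro w hw hwk
      exact hc (bka_trans (claim k hk hki hwk) (JA.symm h.symm hw))
    refine ⟨i, hi, ![p a, p b], ?_, hp2 a b hab, ?_, ?_⟩
    · intro c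
      fin_cases c
      · exact hp1 a
      · exact hp1 b
    · intro c
      fin_cases c
      · exact hp3 a
      · exact hp3 b
    · intro c
      fin_cases c
      · exact hdis a ha
      · exact hdis b hb
  · obtain ⟨i, hi⟩ := hne
    obtain ⟨p, hp1, hp2, hp3⟩ := h.three i
    refine ⟨i, hi, ![p 0, p 1], ?_, hp2 0 1 (by decide), ?_, ?_⟩
    · intro c
      fin_cases c
      · exact hp1 0
      · exact hp1 1
    · intro c
      fin_cases c
      · exact hp3 0
      · exact hp3 1
    · intro c k hk hki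
      exact absurd ⟨(k, i), by
        rw [Finset.mem_filter, Finset.mem_product]
        exact ⟨⟨hk, hi⟩, hki⟩⟩ hP

end UIPQ
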