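import Pool.Agent.Lib.UIPQ.C.BKa

/-!
# BKb: counting (Burton-Keane argument, part 2; est. 150 lines)

PROOF of `bk_family`: induction on the number of elements of `I'` (`Finset.strongInduction` or induction on the cardinality).
`I' = ∅`: `F = ∅`. Otherwise take the leaf `i ∈ I'` and `p` of `exists_leaf`, let `A1 = {w | JA A (B i)ᶜ (p 0) w}`,
`A2 = {w | JA A (B i)ᶜ (p 1) w}` and `T = B i ∪ A1 ∪ A2`. They satisfy:
 * `A1`, `A2` are nonempty, disjoint, disjoint from `B i` and from all `B k`, `k ∈ I'`;
 * if `x ∈ A1`, `A x y` and `y ∉ B i` then `y ∈ A1` (same for `A2`);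
 * `T` is disjoint from all `B k`, `k ∈ I' \ {i}`, and it is connected: any two elements of `T` are joined inside `T`
   (`A1` contains an element adjacent to an element of `B i`: take a path from `p 0` to an element of `B i` (`conn`) and its first
   step which leaves `A1`; paths inside `(B i)ᶜ` starting in `A1` stay in `A1`; `B i` is connected).
By induction there is `F'` for `I' \ {i}`. Every `S ∈ F'` which meets `T` contains `T` (closure property (c) of `S` along the paths in
`T`, which avoid the `B k`, `k ∈ I' \ {i}`), so at most one element of `F'` meets `T` (the elements of `F'` are pairwise disjoint and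
`T` is nonempty). Let `F = {S ∈ F' | Disjoint S T} ∪ {A1, A2}` (classical decidability). Then `F.card ≥ F'.card - 1 + 2 ≥ I'.card`
(`A1 ≠ A2`, and `A1`, `A2` are not in the first part because they are nonempty and contained in `T`). Properties: (a) cardinality
`≥ K`; (b) pairwise disjoint; (c) closed under adjacency outside `⋃ k ∈ I', B k`; (d) disjoint from the `B k`, `k ∈ I'`
(for `S ∈ F'` disjoint from `T`: `B i ⊆ T`).
PROOF of `bk_count`: the union of the elements of `F` has at most `Nat.card X` elements: `K * I'.card ≤ K * F.card ≤ ∑ S ∈ F, S.ncard =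
(⋃ S ∈ F, S).ncard ≤ Nat.card X` (pairwise disjoint finite sets; e.g. via `Finset.card_biUnion` with `Set.toFinite`).
-/

set_option autoImplicit false

namespace UIPQ

/-- facts on a component of the complement of `B i` -/
private theorem comp_facts {X I : Type} {A : X → X → Prop} {B : I → Set X} {K : ℕ}
    (h : BKfam A B K) (i : I) {p : X} (hp : p ∉ B i) :
    {w | JA A (B i)ᶜ p w}.Nonempty ∧ (∀ x, JA A (B i)ᶜ p x → x ∉ B i) ∧ Disjoint {w | JA A (B i)ᶜ p w} (B i) ∧
      (∀ x ∈ {w | JA A (B i)ᶜ p w}, ∀ y, A x y → y ∉ B i → y ∈ {w | JA A (B i)ᶜ p w}) ∧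
      ∀ x ∈ {w | JA A (B i)ᶜ p w}, ∀ z ∈ B i, JA A (B i ∪ {w | JA A (B i)ᶜ p w}) x z := by
  have h1 : ∀ x, JA A (B i)ᶜ p x → x ∉ B i := by
    intro x hx
    unfold JA at hx
    induction hx with
    | refl => exact hp
    | tail _ hbc _ => exact hbc.2.1
  have h2 : ∀ x ∈ {w | JA A (B i)ᶜ p w}, ∀ y, A x y → y ∉ B i → y ∈ {w | JA A (B i)ᶜ p w} := by
    intro x hx y hxy hy
    exact Relation.ReflTransGen.tail hx ⟨h1 x hx, hy, hxy⟩
  refine ⟨⟨p, Relation.ReflTransGen.refl⟩, h1, ?_, h2, ?_⟩
  · rw [Set.disjoint_left]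
    exact fun x hx => h1 x hx
  · -- an element of the component adjacent to `B i`
    obtain ⟨z0, hz0⟩ := h.ne i
    obtain ⟨x0, hx0, z1, hz1, hadj⟩ : ∃ x0 ∈ {w | JA A (B i)ᶜ p w}, ∃ z1 ∈ B i, A x0 z1 := by
      by_contra hall
      push Not at hall
      have h3 : ∀ y, JA A Set.univ p y → y ∈ {w | JA A (B i)ᶜ p w} := by
        intro y hy
        unfold JA at hy
        induction hy with
        | refl => exact Relation.ReflTransGen.refl
        | @tail b c _ hbc ih => exact h2 _ ih _ hbc.2.2 fun hc => hall _ ih _ hc hbc.2.2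
      exact h1 z0 (h3 z0 (h.conn p z0)) hz0
    have h4 : ∀ x, JA A (B i)ᶜ p x → JA A (B i ∪ {w | JA A (B i)ᶜ p w}) p x := by
      intro x hx
      have hx' := hx
      unfold JA at hx'
      induction hx' with
      | refl => exact Relation.ReflTransGen.refl
      | @tail b c hb hbc ih =>
        exact Relation.ReflTransGen.tail (ih hb) ⟨Or.inr hb, Or.inr hx, hbc.2.2⟩
    intro x hx z hz
    have h5 := JA.symm h.symm (h4 x hx)
    have h6 := h4 x0 hx0
    have h7 : JA A (B i ∪ {w | JA A (B i)ᶜ p w}) x0 z1 :=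
      Relation.ReflTransGen.single ⟨Or.inr hx0, Or.inl hz1, hadj⟩
    have h8 := (h.bconn i z1 hz1 z hz).mono (T := B i ∪ {w | JA A (B i)ᶜ p w}) Set.subset_union_left
    exact Relation.ReflTransGen.trans h5 (Relation.ReflTransGen.trans h6 (Relation.ReflTransGen.trans h7 h8))

theorem bk_family {X I : Type} [Finite X] {A : X → X → Prop} {B : I → Set X} {K : ℕ}
    (h : BKfam A B K) (I' : Finset I) :
    ∃ F : Finset (Set X), I'.card ≤ F.card ∧ (∀ S ∈ F, K ≤ S.ncard) ∧
      (∀ S ∈ F, ∀ T ∈ F, S ≠ T → Disjoint S T) ∧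
      (∀ S ∈ F, ∀ x ∈ S, ∀ y, A x y → (∀ k ∈ I', y ∉ B k) → y ∈ S) ∧
      ∀ S ∈ F, ∀ k ∈ I', Disjoint S (B k) := by
  classical
  induction I' using Finset.strongInduction with
  | H I' ih =>
    rcases I'.eq_empty_or_nonempty with rfl | hne
    · exact ⟨∅, by simp, by simp, by simp, by simp, by simp⟩
    obtain ⟨i, hi, p, hp, hp01, hpK, hpd⟩ := exists_leaf h I' hne
    obtain ⟨F', hc, hK, hd, hcl, hdB⟩ := ih (I'.erase i) (Finset.erase_ssubset hi)
    obtain ⟨n0, b0, d0, c0, s0⟩ := comp_facts h i (hp 0)
    obtain ⟨n1, b1, d1, c1, s1⟩ := comp_facts h i (hp 1)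
    set A1 : Set X := {w | JA A (B i)ᶜ (p 0) w} with hA1
    set A2 : Set X := {w | JA A (B i)ᶜ (p 1) w} with hA2
    have h12 : Disjoint A1 A2 := by
      rw [Set.disjoint_left]
      intro w hw hw'
      exact hp01 (Relation.ReflTransGen.trans hw (JA.symm h.symm hw'))
    let T : Set X := B i ∪ (A1 ∪ A2)
    obtain ⟨z0, hz0⟩ := h.ne i
    -- every element of `T` is joined to `z0` inside `T`
    have hTj : ∀ x ∈ T, JA A T x z0 := by
      rintro x (hx | hx | hx)
      · exact (h.bconn i x hx z0 hz0).mono Set.subset_union_left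
      · exact (s0 x hx z0 hz0).mono (by
          intro y hy
          rcases hy with hy | hy
          · exact Or.inl hy
          · exact Or.inr (Or.inl hy))
      · exact (s1 x hx z0 hz0).mono (by
          intro y hy
          rcases hy with hy | hy
          · exact Or.inl hy
          · exact Or.inr (Or.inr hy))
    have hTB : ∀ k ∈ I'.erase i, Disjoint T (B k) := by
      intro k hk
      have hki := Finset.ne_of_mem_erase hk
      have hkI := Finset.mem_of_mem_erase hk
      rw [Set.disjoint_left]
      rintro x (hx | hx | hx) hx'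
      · exact Set.disjoint_left.1 (h.disj i k hki.symm) hx hx'
      · exact Set.disjoint_left.1 (hpd 0 k hkI hki) hx hx'
      · exact Set.disjoint_left.1 (hpd 1 k hkI hki) hx hx'
    have hsub : ∀ S ∈ F', ¬ Disjoint S T → T ⊆ S := by
      intro S hS hST
      rw [Set.not_disjoint_iff] at hST
      obtain ⟨x, hxS, hxT⟩ := hST
      have key : ∀ a b, JA A T a b → a ∈ S → b ∈ S := by
        intro a b hab ha
        unfold JA at hab
        induction hab with
        | refl => exact ha
        | tail _ hbc ih' =>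
          exact hcl S hS _ ih' _ hbc.2.2 fun k hk hy => Set.disjoint_left.1 (hTB k hk) hbc.2.1 hy
      intro y hy
      exact key z0 y (JA.symm h.symm (hTj y hy)) (key x z0 (hTj x hxT) hxS)
    have hz0T : z0 ∈ T := Or.inl hz0
    have hA1T : A1 ⊆ T := fun x hx => Or.inr (Or.inl hx)
    have hA2T : A2 ⊆ T := fun x hx => Or.inr (Or.inr hx)
    have hBT : B i ⊆ T := fun x hx => Or.inl hx
    let F0 : Finset (Set X) := F'.filter (fun S => Disjoint S T)
    have hF0 : F'.card ≤ F0.card + 1 := by
      have h3 : (F'.filter (fun S => ¬ Disjoint S T)).card ≤ 1 := by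
        rw [Finset.card_le_one]
        intro S hS S' hS'
        rw [Finset.mem_filter] at hS hS'
        by_contra hne'
        exact Set.disjoint_left.1 (hd S hS.1 S' hS'.1 hne') (hsub S hS.1 hS.2 hz0T) (hsub S' hS'.1 hS'.2 hz0T)
      have h4 := Finset.card_filter_add_card_filter_not (s := F') (fun S => Disjoint S T)
      show F'.card ≤ (F'.filter (fun S => Disjoint S T)).card + 1
      omega
    have hne12 : A1 ≠ A2 := by
      intro h3
      obtain ⟨w, hw⟩ := n0
      exact Set.disjoint_left.1 h12 hw (h3 ▸ hw)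
    have hA1F : A1 ∉ F0 := by
      intro h3
      obtain ⟨w, hw⟩ := n0
      exact Set.disjoint_left.1 (Finset.mem_filter.1 h3).2 hw (hA1T hw)
    have hA2F : A2 ∉ F0 := by
      intro h3
      obtain ⟨w, hw⟩ := n1
      exact Set.disjoint_left.1 (Finset.mem_filter.1 h3).2 hw (hA2T hw)
    have hmem : ∀ S ∈ insert A1 (insert A2 F0), S = A1 ∨ S = A2 ∨ (S ∈ F' ∧ Disjoint S T) := by
      intro S hS
      rcases Finset.mem_insert.1 hS with h3 | h3
      · exact Or.inl h3
      · rcases Finset.mem_insert.1 h3 with h4 | h4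
        · exact Or.inr (Or.inl h4)
        · exact Or.inr (Or.inr (Finset.mem_filter.1 h4))
    refine ⟨insert A1 (insert A2 F0), ?_, ?_, ?_, ?_, ?_⟩
    · rw [Finset.card_insert_of_notMem, Finset.card_insert_of_notMem hA2F]
      · have h3 := Finset.card_erase_add_one hi
        omega
      · rw [Finset.mem_insert, not_or]
        exact ⟨hne12, hA1F⟩
    · intro S hS
      rcases hmem S hS with rfl | rfl | ⟨h3, -⟩
      · exact hpK 0
      · exact hpK 1
      · exact hK S h3
    · intro S hS S' hS' hSS
      rcases hmem S hS with rfl | rfl | ⟨h3, h3'⟩ <;> rcases hmem S' hS' with rfl | rfl | ⟨h4, h4'⟩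
      · exact absurd rfl hSS
      · exact h12
      · exact (h4'.mono_right hA1T).symm
      · exact h12.symm
      · exact absurd rfl hSS
      · exact (h4'.mono_right hA2T).symm
      · exact h3'.mono_right hA1T
      · exact h3'.mono_right hA2T
      · exact hd S h3 S' h4 hSS
    · intro S hS x hx y hxy hy
      rcases hmem S hS with rfl | rfl | ⟨h3, -⟩
      · exact c0 x hx y hxy (hy i hi)
      · exact c1 x hx y hxy (hy i hi)
      · exact hcl S h3 x hx y hxy fun k hk => hy k (Finset.mem_of_mem_erase hk)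
    · intro S hS k hk
      by_cases hki : k = i
      · rw [hki]
        rcases hmem S hS with rfl | rfl | ⟨h3, h3'⟩
        · exact d0
        · exact d1
        · exact h3'.mono_right hBT
      · rcases hmem S hS with rfl | rfl | ⟨h3, h3'⟩
        · exact hpd 0 k hk hki
        · exact hpd 1 k hk hki
        · exact hdB S h3 k (Finset.mem_erase.2 ⟨hki, hk⟩)

theorem bk_count {X I : Type} [Finite X] {A : X → X → Prop} {B : I → Set X} {K : ℕ}
    (h : BKfam A B K) (I' : Finset I) : K * I'.card ≤ Nat.card X := by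
  classical
  obtain ⟨F, hc, hK, hd, -, -⟩ := bk_family h I'
  have := Fintype.ofFinite X
  have h1 : F.card • K ≤ ∑ S ∈ F, S.ncard := Finset.card_nsmul_le_sum F _ K hK
  have h2 : ∑ S ∈ F, S.ncard = (F.biUnion (fun S => (Set.toFinite S).toFinset)).card := by
    rw [Finset.card_biUnion]
    · exact Finset.sum_congr rfl fun S _ => Set.ncard_eq_toFinset_card S _
    · intro S hS S' hS' hne
      refine Finset.disjoint_left.2 ?_
      intro x hx hx'
      rw [Set.Finite.mem_toFinset] at hx hx'
      exact Set.disjoint_left.1 (hd S hS S' hS' hne) hx hx'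
  have h3 : (F.biUnion (fun S => (Set.toFinite S).toFinset)).card ≤ Nat.card X := by
    rw [Nat.card_eq_fintype_card]
    exact Finset.card_le_univ _
  rw [smul_eq_mul] at h1
  calc K * I'.card ≤ K * F.card := Nat.mul_le_mul_left _ hc
    _ = F.card * K := Nat.mul_comm _ _
    _ ≤ Nat.card X := by omega

end UIPQ
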