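import Pool.Agent.Lib.UIPQ.IDefs

/-!
# Ball: basic facts on the balls of a map
-/

namespace UIPQ

variable {X : Type} {m : CMap X}

theorem vert_eq_iff (m : CMap X) {x y : X} : m.vert x = m.vert y ↔ m.r.SameCycle x y :=
  ⟨fun h => Quotient.exact h, fun h => Quotient.sound h⟩

theorem vert_r (m : CMap X) (x : X) : m.vert (m.r x) = m.vert x := by
  rw [vert_eq_iff]
  exact ⟨-1, by simp⟩

theorem vert_surj (m : CMap X) (v : m.Vertex) : ∃ x, m.vert x = v := Quotient.exists_rep v

theorem ballDarts_vert {x₀ x y : X} {R : ℕ} (h : m.vert x = m.vert y) :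
    x ∈ m.ballDarts x₀ R ↔ y ∈ m.ballDarts x₀ R := by
  simp only [CMap.ballDarts, Set.mem_ofPred_eq, h]

theorem ballDarts_r {x₀ x : X} {R : ℕ} : m.r x ∈ m.ballDarts x₀ R ↔ x ∈ m.ballDarts x₀ R :=
  ballDarts_vert (vert_r m x)

theorem vset_ballDarts (m : CMap X) (x₀ : X) (R : ℕ) : m.VSet (m.ballDarts x₀ R) :=
  fun _ => ballDarts_r

theorem mem_ballDarts_zero {x₀ x : X} : x ∈ m.ballDarts x₀ 0 ↔ m.vert x = m.vert x₀ := Iff.rfl

theorem mem_ballDarts_succ {x₀ x : X} {R : ℕ} : x ∈ m.ballDarts x₀ (R + 1) ↔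
    x ∈ m.ballDarts x₀ R ∨ ∃ z ∈ m.ballDarts x₀ R, m.vert (m.k z) = m.vert x := Iff.rfl

theorem ballDarts_succ (m : CMap X) (x₀ : X) (R : ℕ) :
    m.ballDarts x₀ R ⊆ m.ballDarts x₀ (R + 1) := fun _ h => Or.inl h

theorem ballDarts_mono (m : CMap X) (x₀ : X) {R R' : ℕ} (h : R ≤ R') :
    m.ballDarts x₀ R ⊆ m.ballDarts x₀ R' := by
  induction h with
  | refl => exact subset_rfl
  | step _ ih => exact ih.trans (ballDarts_succ m x₀ _)

theorem self_mem_ballDarts (m : CMap X) (x₀ : X) (R : ℕ) : x₀ ∈ m.ballDarts x₀ R :=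
  ballDarts_mono m x₀ (Nat.zero_le R) (mem_ballDarts_zero.2 rfl)

theorem ballDarts_k {x₀ x : X} {R : ℕ} (h : x ∈ m.ballDarts x₀ R) : m.k x ∈ m.ballDarts x₀ (R + 1) :=
  mem_ballDarts_succ.2 (Or.inr ⟨x, h, rfl⟩)

theorem ballDarts_f {x₀ x : X} {R : ℕ} (h : x ∈ m.ballDarts x₀ R) : m.f x ∈ m.ballDarts x₀ (R + 1) :=
  ballDarts_r.2 (ballDarts_k h)

theorem exists_ballDarts (hc : m.Connected) (x₀ x : X) : ∃ R, x ∈ m.ballDarts x₀ R := by
  have key : ∀ a b, Relation.EqvGen (fun a b => b = m.r a ∨ b = m.k a) a b →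
      ((∃ R, a ∈ m.ballDarts x₀ R) ↔ ∃ R, b ∈ m.ballDarts x₀ R) := by
    intro a b h
    induction h with
    | rel a b h =>
      rcases h with rfl | rfl
      · simp only [ballDarts_r]
      · constructor
        · rintro ⟨R, hR⟩
          exact ⟨R + 1, ballDarts_k hR⟩
        · rintro ⟨R, hR⟩
          refine ⟨R + 1, ?_⟩
          have := ballDarts_k hR
          rwa [m.k_k] at this
    | refl a => exact Iff.rfl
    | symm a b _ ih => exact ih.symm
    | trans a b c _ _ ih1 ih2 => exact ih1.trans ih2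
  exact (key x₀ x (hc x₀ x)).1 ⟨0, self_mem_ballDarts m x₀ 0⟩

theorem darts_finite (hm : m.LocFinite) (x : X) : {y | m.vert y = m.vert x}.Finite := hm (m.vert x)

theorem ballDarts_finite (hm : m.LocFinite) (x₀ : X) (R : ℕ) : (m.ballDarts x₀ R).Finite := by
  induction R with
  | zero => exact hm (m.vert x₀)
  | succ R ih =>
    have h : m.ballDarts x₀ (R + 1) ⊆ m.ballDarts x₀ R ∪
        ⋃ z ∈ m.ballDarts x₀ R, {y | m.vert y = m.vert (m.k z)} := by
      rintro x (hx | ⟨z, hz, hx⟩)
      · exact Or.inl hx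
      · refine Or.inr ?_
        simp only [Set.mem_iUnion]
        exact ⟨z, hz, hx.symm⟩
    exact (ih.union (ih.biUnion fun z _ => hm (m.vert (m.k z)))).subset h

/-! ### Joined -/

theorem CMap.Joined.refl (m : CMap X) (S : Set X) (x : X) : m.Joined S x x := Relation.ReflTransGen.refl

theorem CMap.Joined.trans {S : Set X} {x y z : X} (h : m.Joined S x y) (h' : m.Joined S y z) :
    m.Joined S x z := Relation.ReflTransGen.trans h h'

theorem CMap.Joined.symm {S : Set X} {x y : X} (h : m.Joined S x y) : m.Joined S y x := by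
  unfold CMap.Joined at h ⊢
  induction h with
  | refl => exact Relation.ReflTransGen.refl
  | tail _ h ih => exact Relation.ReflTransGen.trans (Relation.ReflTransGen.single ⟨h.2.1, h.1, h.2.2.symm⟩) ih

theorem CMap.Joined.mono {S T : Set X} {x y : X} (h : m.Joined S x y) (hST : S ⊆ T) :
    m.Joined T x y := by
  unfold CMap.Joined at h ⊢
  induction h with
  | refl => exact Relation.ReflTransGen.refl
  | tail _ h ih => exact Relation.ReflTransGen.tail ih ⟨hST h.1, hST h.2.1, h.2.2⟩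

theorem CMap.Joined.mem {S : Set X} {x y : X} (h : m.Joined S x y) (hx : x ∈ S) : y ∈ S := by
  unfold CMap.Joined at h
  induction h with
  | refl => exact hx
  | tail _ h _ => exact h.2.1

theorem joined_r {S : Set X} {x : X} (hx : x ∈ S) (hy : m.r x ∈ S) : m.Joined S x (m.r x) :=
  Relation.ReflTransGen.single ⟨hx, hy, Or.inr (Or.inl rfl)⟩

theorem joined_k {S : Set X} {x : X} (hx : x ∈ S) (hy : m.k x ∈ S) : m.Joined S x (m.k x) :=
  Relation.ReflTransGen.single ⟨hx, hy, Or.inl rfl⟩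

theorem joined_vert {S : Set X} (hS : m.VSet S) {x y : X} (hx : x ∈ S) (h : m.vert x = m.vert y) :
    m.Joined S x y := by
  rw [vert_eq_iff] at h
  obtain ⟨i, rfl⟩ := h
  induction i with
  | zero => simpa using CMap.Joined.refl m S x
  | succ i ih =>
    have h1 := ih.mem hx
    have h2 : (m.r ^ ((i : ℤ) + 1)) x = m.r ((m.r ^ (i : ℤ)) x) := by
      rw [add_comm, zpow_add, zpow_one, Equiv.Perm.mul_apply]
    rw [h2]
    exact ih.trans (joined_r h1 ((hS _).2 h1))
  | pred i ih =>
    have h1 := ih.mem hx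
    have h2 : m.r ((m.r ^ (-(i : ℤ) - 1)) x) = (m.r ^ (-(i : ℤ))) x := by
      rw [← Equiv.Perm.mul_apply, ← zpow_one_add]
      congr 2
      ring
    have h3 : (m.r ^ (-(i : ℤ) - 1)) x ∈ S := by
      rw [← hS, h2]; exact h1
    refine ih.trans (CMap.Joined.symm ?_)
    have h4 := joined_r h3 (by rw [h2]; exact h1)
    rwa [h2] at h4

theorem vset_mem {S : Set X} (hS : m.VSet S) {x y : X} (h : m.vert x = m.vert y) :
    x ∈ S ↔ y ∈ S :=
  ⟨fun hx => (joined_vert hS hx h).mem hx, fun hy => (joined_vert hS hy h.symm).mem hy⟩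

theorem joined_ball {x₀ x : X} {R : ℕ} (h : x ∈ m.ballDarts x₀ R) :
    m.Joined (m.ballDarts x₀ R) x₀ x := by
  induction R generalizing x with
  | zero => exact joined_vert (vset_ballDarts m x₀ 0) (self_mem_ballDarts m x₀ 0) h.symm
  | succ R ih =>
    rcases h with h | ⟨z, hz, hx⟩
    · exact (ih h).mono (ballDarts_succ m x₀ R)
    · refine ((ih hz).mono (ballDarts_succ m x₀ R)).trans ?_
      refine (joined_k (ballDarts_succ m x₀ R hz) (ballDarts_k hz)).trans ?_
      exact joined_vert (vset_ballDarts m x₀ _) (ballDarts_k hz) hx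

/-! ### Distances -/

theorem ballDarts_trans {x y z : X} {a b : ℕ} (h : x ∈ m.ballDarts y a) (h' : y ∈ m.ballDarts z b) :
    x ∈ m.ballDarts z (b + a) := by
  induction a generalizing x with
  | zero => exact (ballDarts_vert h).2 h'
  | succ a ih =>
    rcases h with h | ⟨w, hw, hx⟩
    · exact ballDarts_succ m z (b + a) (ih h)
    · exact mem_ballDarts_succ.2 (Or.inr ⟨w, ih hw, hx⟩)

theorem ballDarts_symm {x y : X} {a : ℕ} (h : x ∈ m.ballDarts y a) : y ∈ m.ballDarts x a := by
  induction a generalizing x with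
  | zero => exact h.symm
  | succ a ih =>
    rcases h with h | ⟨w, hw, hx⟩
    · exact ballDarts_succ m x a (ih h)
    · have h1 := ih hw
      have h2 : w ∈ m.ballDarts x 1 := by
        refine mem_ballDarts_succ.2 (Or.inr ⟨m.k w, hx, ?_⟩)
        rw [m.k_k]
      have := ballDarts_trans h1 h2
      rwa [add_comm] at this

/-- the components of the complement: `x` is joined to `y` outside `S`, so they are on the same side
of every edge set which avoids them -/
theorem CMap.Joined.const {S : Set X} {x y : X} {c : X → ZMod 2} (h : m.Joined S x y)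
    (hr : ∀ z, c (m.r z) = c z) (hk : ∀ z ∈ S, m.k z ∈ S → c (m.k z) = c z) : c y = c x := by
  unfold CMap.Joined at h
  induction h with
  | refl => rfl
  | tail _ h ih =>
    obtain ⟨h1, h2, h3⟩ := h
    rw [← ih]
    rcases h3 with rfl | rfl | h3
    · exact hk _ h1 h2
    · exact hr _
    · rw [h3]; exact (hr _).symm

end UIPQ
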