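import Pool.Agent.Lib.UIPQ.C.Ball

/-!
# Iso: ball isomorphisms
-/

namespace UIPQ

variable {X X' X'' : Type} {m : CMap X} {m' : CMap X'} {m'' : CMap X''}

/-- `e` is an isomorphism of the balls of radius `R` -/
structure BIso (R : ℕ) (m : CMap X) (x₀ : X) (m' : CMap X') (x₀' : X') (e : X → X') : Prop where
  bij : Set.BijOn e (m.ballDarts x₀ R) (m'.ballDarts x₀' R)
  root : e x₀ = x₀'
  r : ∀ x ∈ m.ballDarts x₀ R, e (m.r x) = m'.r (e x)
  k : ∀ x ∈ m.ballDarts x₀ R, ∀ y ∈ m.ballDarts x₀ R, (m.k x = y ↔ m'.k (e x) = e y)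

theorem ballIso_iff {R : ℕ} {x₀ : X} {x₀' : X'} :
    BallIso R m x₀ m' x₀' ↔ ∃ e, BIso R m x₀ m' x₀' e :=
  ⟨fun ⟨e, h1, h2, h3, h4⟩ => ⟨e, h1, h2, h3, h4⟩, fun ⟨e, h⟩ => ⟨e, h.bij, h.root, h.r, h.k⟩⟩

namespace BIso

variable {R : ℕ} {x₀ : X} {x₀' : X'} {e : X → X'}

theorem mem (h : BIso R m x₀ m' x₀' e) {x : X} (hx : x ∈ m.ballDarts x₀ R) :
    e x ∈ m'.ballDarts x₀' R := h.bij.mapsTo hx

theorem k_eq (h : BIso R m x₀ m' x₀' e) {x : X} (hx : x ∈ m.ballDarts x₀ R)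
    (hk : m.k x ∈ m.ballDarts x₀ R) : e (m.k x) = m'.k (e x) :=
  (((h.k x hx (m.k x) hk).1 rfl)).symm

theorem k_mem (h : BIso R m x₀ m' x₀' e) {x : X} (hx : x ∈ m.ballDarts x₀ R) :
    m.k x ∈ m.ballDarts x₀ R ↔ m'.k (e x) ∈ m'.ballDarts x₀' R := by
  constructor
  · intro hk
    rw [← h.k_eq hx hk]
    exact h.mem hk
  · intro hk
    obtain ⟨y, hy, he⟩ := h.bij.surjOn hk
    rw [(h.k x hx y hy).2 he.symm]
    exact hy

theorem r_pow (h : BIso R m x₀ m' x₀' e) {x : X} (hx : x ∈ m.ballDarts x₀ R) (i : ℤ) :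
    (m.r ^ i) x ∈ m.ballDarts x₀ R ∧ e ((m.r ^ i) x) = (m'.r ^ i) (e x) := by
  induction i with
  | zero => exact ⟨by simpa using hx, by simp⟩
  | succ i ih =>
    have h2 : (m.r ^ ((i : ℤ) + 1)) x = m.r ((m.r ^ (i : ℤ)) x) := by
      rw [add_comm, zpow_add, zpow_one, Equiv.Perm.mul_apply]
    have h3 : (m'.r ^ ((i : ℤ) + 1)) (e x) = m'.r ((m'.r ^ (i : ℤ)) (e x)) := by
      rw [add_comm, zpow_add, zpow_one, Equiv.Perm.mul_apply]
    rw [h2, h3]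
    exact ⟨ballDarts_r.2 ih.1, by rw [h.r _ ih.1, ih.2]⟩
  | pred i ih =>
    have h2 : m.r ((m.r ^ (-(i : ℤ) - 1)) x) = (m.r ^ (-(i : ℤ))) x := by
      rw [← Equiv.Perm.mul_apply, ← zpow_one_add]
      congr 2
      ring
    have h3 : m'.r ((m'.r ^ (-(i : ℤ) - 1)) (e x)) = (m'.r ^ (-(i : ℤ))) (e x) := by
      rw [← Equiv.Perm.mul_apply, ← zpow_one_add]
      congr 2
      ring
    have h4 : (m.r ^ (-(i : ℤ) - 1)) x ∈ m.ballDarts x₀ R := by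
      rw [← ballDarts_r, h2]; exact ih.1
    refine ⟨h4, ?_⟩
    apply m'.r.injective
    rw [h3, ← h.r _ h4, h2, ih.2]

theorem vert (h : BIso R m x₀ m' x₀' e) {x y : X} (hx : x ∈ m.ballDarts x₀ R)
    (hy : y ∈ m.ballDarts x₀ R) : m.vert x = m.vert y ↔ m'.vert (e x) = m'.vert (e y) := by
  rw [vert_eq_iff, vert_eq_iff]
  constructor
  · rintro ⟨i, rfl⟩
    exact ⟨i, ((h.r_pow hx i).2).symm⟩
  · rintro ⟨i, hi⟩
    refine ⟨i, h.bij.injOn (h.r_pow hx i).1 hy ?_⟩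
    rw [(h.r_pow hx i).2, hi]

theorem ball (h : BIso R m x₀ m' x₀' e) {j : ℕ} (hj : j ≤ R) {x : X} (hx : x ∈ m.ballDarts x₀ R) :
    x ∈ m.ballDarts x₀ j ↔ e x ∈ m'.ballDarts x₀' j := by
  induction j generalizing x with
  | zero =>
    rw [mem_ballDarts_zero, mem_ballDarts_zero, h.vert hx (self_mem_ballDarts m x₀ R), h.root]
  | succ j ih =>
    have hj' : j ≤ R := (Nat.le_succ j).trans hj
    rw [mem_ballDarts_succ, mem_ballDarts_succ, ih hj' hx]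
    constructor
    · rintro (h1 | ⟨z, hz, hx1⟩)
      · exact Or.inl h1
      · have hzR := ballDarts_mono m x₀ hj' hz
        have hk := ballDarts_mono m x₀ hj (ballDarts_k hz)
        refine Or.inr ⟨e z, (ih hj' hzR).1 hz, ?_⟩
        rw [← h.k_eq hzR hk]
        exact (h.vert hk hx).1 hx1
    · rintro (h1 | ⟨z', hz', hx1⟩)
      · exact Or.inl h1
      · obtain ⟨z, hzR, rfl⟩ := h.bij.surjOn (ballDarts_mono m' x₀' hj' hz')
        have hz := (ih hj' hzR).2 hz'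
        have hk := ballDarts_mono m x₀ hj (ballDarts_k hz)
        refine Or.inr ⟨z, hz, ?_⟩
        rw [← h.k_eq hzR hk] at hx1
        exact (h.vert hk hx).2 hx1

theorem mono (h : BIso R m x₀ m' x₀' e) {j : ℕ} (hj : j ≤ R) : BIso j m x₀ m' x₀' e := by
  have hs := ballDarts_mono m x₀ hj
  refine ⟨⟨fun x hx => (h.ball hj (hs hx)).1 hx, h.bij.injOn.mono hs, fun y hy => ?_⟩, h.root,
    fun x hx => h.r x (hs hx), fun x hx y hy => h.k x (hs hx) y (hs hy)⟩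
  obtain ⟨x, hx, rfl⟩ := h.bij.surjOn (ballDarts_mono m' x₀' hj hy)
  exact ⟨x, (h.ball hj hx).2 hy, rfl⟩

theorem f_eq (h : BIso R m x₀ m' x₀' e) {j : ℕ} (hj : j + 1 ≤ R) {x : X}
    (hx : x ∈ m.ballDarts x₀ j) : e (m.f x) = m'.f (e x) := by
  have h1 := ballDarts_mono m x₀ hj (ballDarts_k hx)
  have h2 := ballDarts_mono m x₀ ((Nat.le_succ j).trans hj) hx
  rw [CMap.f_apply, CMap.f_apply, h.r _ h1, h.k_eq h2 h1]

theorem refl (R : ℕ) (m : CMap X) (x₀ : X) : BIso R m x₀ m x₀ id :=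
  ⟨Set.bijOn_id _, rfl, fun _ _ => rfl, fun _ _ _ _ => Iff.rfl⟩

theorem trans {x₀'' : X''} {e' : X' → X''} (h : BIso R m x₀ m' x₀' e)
    (h' : BIso R m' x₀' m'' x₀'' e') : BIso R m x₀ m'' x₀'' (e' ∘ e) := by
  refine ⟨h'.bij.comp h.bij, by rw [Function.comp_apply, h.root, h'.root], fun x hx => ?_,
    fun x hx y hy => ?_⟩
  · simp only [Function.comp_apply]
    rw [h.r x hx, h'.r _ (h.mem hx)]
  · simp only [Function.comp_apply]
    rw [h.k x hx y hy, h'.k _ (h.mem hx) _ (h.mem hy)]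

theorem symm (h : BIso R m x₀ m' x₀' e) : ∃ e', BIso R m' x₀' m x₀ e' := by
  classical
  have : Nonempty X := ⟨x₀⟩
  have hinv := h.bij.invOn_invFunOn
  have hmem : ∀ y ∈ m'.ballDarts x₀' R, Function.invFunOn e (m.ballDarts x₀ R) y ∈ m.ballDarts x₀ R :=
    fun y hy => Function.invFunOn_mem (h.bij.surjOn hy)
  refine ⟨Function.invFunOn e (m.ballDarts x₀ R), ⟨(Set.bijOn_comm hinv).2 h.bij, ?_, fun y hy => ?_,
    fun y hy z hz => ?_⟩⟩
  · rw [← h.root]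
    exact hinv.1 (self_mem_ballDarts m x₀ R)
  · obtain ⟨x, hx, rfl⟩ := h.bij.surjOn hy
    rw [← h.r x hx, hinv.1 hx, hinv.1 (ballDarts_r.2 hx)]
  · obtain ⟨x, hx, rfl⟩ := h.bij.surjOn hy
    obtain ⟨w, hw, rfl⟩ := h.bij.surjOn hz
    rw [hinv.1 hx, hinv.1 hw]
    exact (h.k x hx w hw).symm

/-- joined darts in a part of the ball -/
theorem joined (h : BIso R m x₀ m' x₀' e) {S : Set X} (hS : S ⊆ m.ballDarts x₀ R) {x y : X}
    (hxy : m.Joined S x y) : m'.Joined (e '' S) (e x) (e y) := by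
  unfold CMap.Joined at hxy ⊢
  induction hxy with
  | refl => exact Relation.ReflTransGen.refl
  | tail _ hbc ih =>
    obtain ⟨hb, hc, h3⟩ := hbc
    refine Relation.ReflTransGen.tail ih ⟨⟨_, hb, rfl⟩, ⟨_, hc, rfl⟩, ?_⟩
    rcases h3 with rfl | rfl | h3
    · exact Or.inl (h.k_eq (hS hb) (hS hc))
    · exact Or.inr (Or.inl (h.r _ (hS hb)))
    · exact Or.inr (Or.inr (by rw [h3, h.r _ (hS hc)]))

end BIso

theorem BallIso.refl (R : ℕ) (m : CMap X) (x₀ : X) : BallIso R m x₀ m x₀ :=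
  ballIso_iff.2 ⟨id, BIso.refl R m x₀⟩

theorem BallIso.symm {R : ℕ} {x₀ : X} {x₀' : X'} (h : BallIso R m x₀ m' x₀') :
    BallIso R m' x₀' m x₀ := by
  obtain ⟨e, he⟩ := ballIso_iff.1 h
  exact ballIso_iff.2 he.symm

theorem BallIso.trans {R : ℕ} {x₀ : X} {x₀' : X'} {x₀'' : X''} (h : BallIso R m x₀ m' x₀')
    (h' : BallIso R m' x₀' m'' x₀'') : BallIso R m x₀ m'' x₀'' := by
  obtain ⟨e, he⟩ := ballIso_iff.1 h
  obtain ⟨e', he'⟩ := ballIso_iff.1 h'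
  exact ballIso_iff.2 ⟨_, he.trans he'⟩

end UIPQ
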