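import Pool.Agent.Lib.UIPQ.C.BKb
import Pool.Agent.Lib.UIPQ.C.Iso

/-!
# Big: balls whose complement has three large components; counting them (est. 130 lines)

PROOF of `big3_count`. Let `S = {x | m.Big3 x r K ∧ (m.ballDarts x (2 * r)).ncard ≤ K0}` (finite). Let `Y` be a subset of `S`
(as a `Finset X`) of maximal cardinality among the subsets with pairwise disjoint balls `m.ballDarts y r`
(`Finset.exists_max_image` on the filtered powerset of `S`, or `Set.Finite.exists_maximal`...).
`bk_count` with `I = {x // m.Big3 x r K}` (or `I = Y` as a subtype), `A = m.HAdj`, `B y = m.ballDarts y r` gives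
`K * Y.card ≤ Nat.card X`: `JA m.HAdj S x y` is by definition `m.Joined S x y`; `symm`: `CMap.HAdj.symm`; `conn`: from `m.Connected`
(induction on `Relation.EqvGen`, `CMap.Joined.symm/trans`, `joined_r`, `joined_k` with `S = Set.univ`); `ne`: `self_mem_ballDarts`;
`bconn`: `joined_ball` (twice, `symm`, `trans`); `disj`: by the choice of `Y` (use the family indexed by the subtype of the elements of
`Y`); `three`: the definition of `Big3`.
Every `x ∈ S` is in `m.ballDarts y (2 * r)` for some `y ∈ Y`: by maximality of `Y` there is `y ∈ Y` (`y = x` if `x ∈ Y`) for which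
`m.ballDarts x r` and `m.ballDarts y r` have a common element `z`; `ballDarts_symm`: `x ∈ m.ballDarts z r`, `ballDarts_trans`. So
`S.ncard ≤ ∑ y ∈ Y, (m.ballDarts y (2 * r)).ncard ≤ K0 * Y.card` and `K * S.ncard ≤ K0 * (K * Y.card) ≤ K0 * Nat.card X`.
PROOF of `big3_iso`: transport by `e` bijective on all darts: `bIso_relabel` is used by the user; here: for a `BIso R m x₀ m' x₀' e` for
all `R` with `e` a bijection of all darts commuting with `r` and `k`, `m.Joined T x y ↔ m'.Joined (e '' T) (e x) (e y)` (induction on the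
path in both directions), `e '' (m.ballDarts x₀ r)ᶜ = (m'.ballDarts x₀' r)ᶜ`, and `e` maps the component onto the component
(`Set.ncard_image_of_injective`).
-/

set_option autoImplicit false

namespace UIPQ

/-- the complement of the ball of radius `r` has three different components with at least `K` darts -/
def CMap.Big3 {X : Type} (m : CMap X) (x₀ : X) (r K : ℕ) : Prop :=
  ∃ p : Fin 3 → X, (∀ a, p a ∉ m.ballDarts x₀ r) ∧
    (∀ a b, a ≠ b → ¬ m.Joined (m.ballDarts x₀ r)ᶜ (p a) (p b)) ∧
    ∀ a, K ≤ {w | m.Joined (m.ballDarts x₀ r)ᶜ (p a) w}.ncard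

/-- the complement of the ball of radius `r` has three different infinite components -/
def CMap.Big3inf {X : Type} (m : CMap X) (x₀ : X) (r : ℕ) : Prop :=
  ∃ p : Fin 3 → X, (∀ a, p a ∉ m.ballDarts x₀ r) ∧
    (∀ a b, a ≠ b → ¬ m.Joined (m.ballDarts x₀ r)ᶜ (p a) (p b)) ∧
    ∀ a, {w | m.Joined (m.ballDarts x₀ r)ᶜ (p a) w}.Infinite

private theorem big_conn {X : Type} (m : CMap X) (hc : m.Connected) (x y : X) : m.Joined Set.univ x y := by
  have key : ∀ a b, Relation.EqvGen (fun a b => b = m.r a ∨ b = m.k a) a b → m.Joined Set.univ a b := by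
    intro a b h
    induction h with
    | rel a b h =>
      rcases h with rfl | rfl
      · exact joined_r (Set.mem_univ _) (Set.mem_univ _)
      · exact joined_k (Set.mem_univ _) (Set.mem_univ _)
    | refl a => exact CMap.Joined.refl m _ a
    | symm a b _ ih => exact ih.symm
    | trans a b c _ _ ih1 ih2 => exact ih1.trans ih2
  exact key x y (hc x y)

theorem big3_count {X : Type} [Finite X] (m : CMap X) (hc : m.Connected) (r K K0 : ℕ) :
    K * {x | m.Big3 x r K ∧ (m.ballDarts x (2 * r)).ncard ≤ K0}.ncard ≤ K0 * Nat.card X := by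
  classical
  let S : Set X := {x | m.Big3 x r K ∧ (m.ballDarts x (2 * r)).ncard ≤ K0}
  have hS : S.Finite := Set.toFinite S
  let Fm : Finset (Finset X) := hS.toFinset.powerset.filter
    (fun Y => ∀ y ∈ Y, ∀ z ∈ Y, y ≠ z → Disjoint (m.ballDarts y r) (m.ballDarts z r))
  obtain ⟨Y, hY, hmax⟩ := Finset.exists_max_image Fm Finset.card
    ⟨∅, Finset.mem_filter.2 ⟨Finset.mem_powerset.2 (Finset.empty_subset _), by simp⟩⟩
  obtain ⟨hYS, hYd⟩ := Finset.mem_filter.1 hY
  rw [Finset.mem_powerset] at hYS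
  have hfam : BKfam m.HAdj (fun y : {x // x ∈ Y} => m.ballDarts y.1 r) K := by
    refine ⟨fun x y h => h.symm, big_conn m hc, fun i => ⟨i.1, self_mem_ballDarts m i.1 r⟩, ?_, ?_, ?_⟩
    · intro i x hx y hy
      exact (joined_ball hx).symm.trans (joined_ball hy)
    · intro i j hij
      exact hYd i.1 i.2 j.1 j.2 fun h => hij (Subtype.ext h)
    · intro i
      have h1 : i.1 ∈ S := hS.mem_toFinset.1 (hYS i.2)
      exact h1.1
  have h1 := bk_count hfam Finset.univ
  rw [Finset.card_univ, Fintype.card_coe] at h1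
  have hcov : ∀ x ∈ S, ∃ y ∈ Y, x ∈ m.ballDarts y (2 * r) := by
    intro x hx
    by_contra hall
    push Not at hall
    have hxY : x ∉ Y := fun h => hall x h (self_mem_ballDarts m x _)
    have h2 : ∀ y ∈ Y, Disjoint (m.ballDarts x r) (m.ballDarts y r) := by
      intro y hy
      rw [Set.disjoint_left]
      intro z hz hz'
      apply hall y hy
      have h3 := ballDarts_trans (ballDarts_symm hz) hz'
      rw [two_mul]
      exact h3
    have h3 : insert x Y ∈ Fm := by
      refine Finset.mem_filter.2 ⟨Finset.mem_powerset.2 (Finset.insert_subset (hS.mem_toFinset.2 hx) hYS), ?_⟩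
      intro y hy z hz hyz
      rcases Finset.mem_insert.1 hy with hyx | hyY
      · rcases Finset.mem_insert.1 hz with hzx | hzY
        · exact absurd (hyx.trans hzx.symm) hyz
        · rw [hyx]
          exact h2 z hzY
      · rcases Finset.mem_insert.1 hz with hzx | hzY
        · rw [hzx]
          exact (h2 y hyY).symm
        · exact hYd y hyY z hzY hyz
    have h4 := hmax _ h3
    rw [Finset.card_insert_of_notMem hxY] at h4
    omega
  have h2 : S.ncard ≤ Y.card * K0 := by
    rw [Set.ncard_eq_toFinset_card S hS]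
    have h3 : hS.toFinset ⊆ Y.biUnion (fun y => (Set.toFinite (m.ballDarts y (2 * r))).toFinset) := by
      intro x hx
      obtain ⟨y, hy, hxy⟩ := hcov x (hS.mem_toFinset.1 hx)
      exact Finset.mem_biUnion.2 ⟨y, hy, (Set.toFinite (m.ballDarts y (2 * r))).mem_toFinset.2 hxy⟩
    refine (Finset.card_le_card h3).trans (Finset.card_biUnion_le_card_mul _ _ _ fun y hy => ?_)
    rw [← Set.ncard_eq_toFinset_card]
    have h4 : y ∈ S := hS.mem_toFinset.1 (hYS hy)
    exact h4.2
  calc K * S.ncard ≤ K * (Y.card * K0) := Nat.mul_le_mul_left _ h2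
    _ = K0 * (K * Y.card) := by ring
    _ ≤ K0 * Nat.card X := Nat.mul_le_mul_left _ h1

theorem big3_iso {X X' : Type} {m : CMap X} {m' : CMap X'} {x₀ : X} {x₀' : X'} (e : X ≃ X')
    (h : ∀ R, BIso R m x₀ m' x₀' e) (hr : ∀ x, e (m.r x) = m'.r (e x))
    (hk : ∀ x, e (m.k x) = m'.k (e x)) {r K : ℕ} (hb : m.Big3 x₀ r K) : m'.Big3 x₀' r K := by
  have hmem : ∀ x, e x ∈ m'.ballDarts x₀' r ↔ x ∈ m.ballDarts x₀ r := by
    intro x
    constructor
    · intro hx
      obtain ⟨y, hy, hyx⟩ := (h r).bij.surjOn hx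
      rw [e.injective hyx] at hy
      exact hy
    · intro hx
      exact (h r).bij.mapsTo hx
  have hadj : ∀ x y, m.HAdj x y → m'.HAdj (e x) (e y) := by
    rintro x y (rfl | rfl | hxy)
    · exact Or.inl (hk x)
    · exact Or.inr (Or.inl (hr x))
    · exact Or.inr (Or.inr (by rw [hxy, hr]))
  have hadj' : ∀ x y, m'.HAdj (e x) (e y) → m.HAdj x y := by
    rintro x y (hxy | hxy | hxy)
    · exact Or.inl (e.injective (by rw [hk]; exact hxy))
    · exact Or.inr (Or.inl (e.injective (by rw [hr]; exact hxy)))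
    · exact Or.inr (Or.inr (e.injective (by rw [hr]; exact hxy)))
  have hj : ∀ x y, m.Joined (m.ballDarts x₀ r)ᶜ x y → m'.Joined (m'.ballDarts x₀' r)ᶜ (e x) (e y) := by
    intro x y hxy
    refine Relation.ReflTransGen.lift e ?_ _ _ hxy
    rintro a b ⟨h1, h2, h3⟩
    exact ⟨fun h4 => h1 ((hmem a).1 h4), fun h4 => h2 ((hmem b).1 h4), hadj a b h3⟩
  have hj' : ∀ x y, m'.Joined (m'.ballDarts x₀' r)ᶜ (e x) (e y) → m.Joined (m.ballDarts x₀ r)ᶜ x y := by
    intro x y hxy
    have h5 : m.Joined (m.ballDarts x₀ r)ᶜ (e.symm (e x)) (e.symm (e y)) := by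
      refine Relation.ReflTransGen.lift e.symm ?_ _ _ hxy
      rintro a b ⟨h1, h2, h3⟩
      rw [← e.apply_symm_apply a, ← e.apply_symm_apply b] at h3
      rw [← e.apply_symm_apply a] at h1
      rw [← e.apply_symm_apply b] at h2
      exact ⟨fun h4 => h1 ((hmem _).2 h4), fun h4 => h2 ((hmem _).2 h4), hadj' _ _ h3⟩
    rw [Equiv.symm_apply_apply, Equiv.symm_apply_apply] at h5
    exact h5
  obtain ⟨p, h1, h2, h3⟩ := hb
  refine ⟨fun a => e (p a), fun a ha => h1 a ((hmem _).1 ha), fun a b hab h4 => h2 a b hab (hj' _ _ h4), fun a => ?_⟩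
  have h4 : {w | m'.Joined (m'.ballDarts x₀' r)ᶜ (e (p a)) w} = e '' {w | m.Joined (m.ballDarts x₀ r)ᶜ (p a) w} := by
    ext w
    constructor
    · intro hw
      refine ⟨e.symm w, hj' _ _ ?_, e.apply_symm_apply w⟩
      rw [Equiv.apply_symm_apply]
      exact hw
    · rintro ⟨y, hy, rfl⟩
      exact hj _ _ hy
  show K ≤ {w | m'.Joined (m'.ballDarts x₀' r)ᶜ (e (p a)) w}.ncard
  rw [h4, Set.ncard_image_of_injective _ e.injective]
  exact h3 a

end UIPQ
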