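import Pool.Agent.Lib.UIPQ.C.Ball

/-!
# CapLow: from the capacity to a cut-off function (est. 150 lines)

PROOF. The set `T` in the definition of `m.cap (1 / n ^ 2) x₀` is nonempty (take `u = 1`) and its infimum is `< 2 * a`
(`a < 2 * a`), so (`exists_lt_of_csInf_lt`) there is `u` with `m.RInv u`, `u x₀ = 1` and
`m.En u + (1 / n ^ 2) * ∑ u² < 2 * a`.
Let `η y = #{j < n | y ∈ m.ballDarts x₀ j} / n` (classical; `Finset.range n` filtered). Properties: `0 ≤ η ≤ 1`;
`η (m.r y) = η y` (`ballDarts_r`); `η x₀ = 1` (`self_mem_ballDarts`); `η y = 0` if `y ∉ m.ballDarts x₀ n` (`ballDarts_mono`);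
`|η y - η (m.k y)| ≤ 1 / n`: by `ballDarts_k`, `j ↦ j + 1` maps `{j < n | y ∈ BD j}` into `{j ≤ n | m.k y ∈ BD j}`, so
`#{j < n | y ∈ BD j} ≤ #{j < n | m.k y ∈ BD j} + 1` (`Finset.card_le_card_of_injOn`), and symmetrically (`k_k`).
`w = u * η`: invariant, `w x₀ = 1`, `w = 0` outside the ball of radius `n`, and
`w y - w (m.k y) = η y * (u y - u (m.k y)) + u (m.k y) * (η y - η (m.k y))`, so
`(w y - w (m.k y)) ^ 2 ≤ 2 * (u y - u (m.k y)) ^ 2 + 2 * u (m.k y) ^ 2 / n ^ 2`. Summing over `y` (`Equiv.sum_comp m.k` for the last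
term): `(∑ (w y - w (m.k y)) ^ 2) / 2 ≤ 2 * m.En u + (1 / n ^ 2) * ∑ u² ≤ 2 * (2 * a) = 4 * a`. (`∑ᶠ = ∑`: `finsum_eq_sum_of_fintype`.)
-/

set_option autoImplicit false

namespace UIPQ

open Classical in
/-- the number of the radii `j < n` whose ball contains `y` -/
private noncomputable def clEta {X : Type} (m : CMap X) (x₀ : X) (n : ℕ) (y : X) : ℕ :=
  ((Finset.range n).filter (fun j => y ∈ m.ballDarts x₀ j)).card

private theorem clEta_le {X : Type} (m : CMap X) (x₀ : X) (n : ℕ) (y : X) : clEta m x₀ n y ≤ n := by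
  classical
  unfold clEta
  exact (Finset.card_filter_le _ _).trans (le_of_eq (Finset.card_range n))

private theorem clEta_r {X : Type} (m : CMap X) (x₀ : X) (n : ℕ) (y : X) :
    clEta m x₀ n (m.r y) = clEta m x₀ n y := by
  classical
  unfold clEta
  congr 1
  ext j
  rw [Finset.mem_filter, Finset.mem_filter, ballDarts_r]

private theorem clEta_self {X : Type} (m : CMap X) (x₀ : X) (n : ℕ) : clEta m x₀ n x₀ = n := by
  simp only [clEta, self_mem_ballDarts, Finset.filter_true, Finset.card_range]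

private theorem clEta_out {X : Type} (m : CMap X) (x₀ : X) (n : ℕ) {y : X} (h : y ∉ m.ballDarts x₀ n) :
    clEta m x₀ n y = 0 := by
  classical
  rw [clEta, Finset.card_eq_zero, Finset.filter_eq_empty_iff]
  intro j hj hy
  exact h (ballDarts_mono m x₀ (Finset.mem_range.1 hj).le hy)

private theorem clEta_k {X : Type} (m : CMap X) (x₀ : X) (n : ℕ) (y : X) :
    clEta m x₀ n y ≤ clEta m x₀ n (m.k y) + 1 := by
  classical
  have h1 : clEta m x₀ n y ≤ ((Finset.range (n + 1)).filter (fun j => m.k y ∈ m.ballDarts x₀ j)).card := by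
    unfold clEta
    refine Finset.card_le_card_of_injOn (fun j => j + 1) ?_ (fun a _ b _ hab => Nat.succ_injective hab)
    intro j hj
    have hj' := Finset.mem_filter.1 (Finset.mem_coe.1 hj)
    exact Finset.mem_coe.2 (Finset.mem_filter.2
      ⟨Finset.mem_range.2 (Nat.succ_lt_succ (Finset.mem_range.1 hj'.1)), ballDarts_k hj'.2⟩)
  have h2 : ((Finset.range (n + 1)).filter (fun j => m.k y ∈ m.ballDarts x₀ j)).card ≤
      clEta m x₀ n (m.k y) + 1 := by
    unfold clEta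
    rw [Finset.range_add_one, Finset.filter_insert]
    split_ifs
    · exact Finset.card_insert_le _ _
    · exact Nat.le_succ _
  exact h1.trans h2

theorem lowCond_of_cap {X : Type} [Fintype X] (m : CMap X) (x₀ : X) (n : ℕ) (hn : 1 ≤ n) (a : ℝ)
    (ha : 0 < a) (h : m.cap (1 / (n : ℝ) ^ 2) x₀ ≤ a) : m.LowCond x₀ n (4 * a) := by
  have hn0 : (0 : ℝ) < n := by exact_mod_cast hn
  have hne : {e | ∃ u : X → ℝ, m.RInv u ∧ u x₀ = 1 ∧ e = m.En u + 1 / (n : ℝ) ^ 2 * ∑ y : X, u y ^ 2}.Nonempty :=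
    ⟨_, fun _ => 1, fun _ => rfl, rfl, rfl⟩
  have hlt : m.cap (1 / (n : ℝ) ^ 2) x₀ < 2 * a := lt_of_le_of_lt h (by linarith)
  obtain ⟨e, ⟨u, hu1, hu2, hu3⟩, he⟩ := exists_lt_of_csInf_lt hne hlt
  rw [hu3] at he
  obtain ⟨η, hη⟩ : ∃ η : X → ℝ, η = fun y => (clEta m x₀ n y : ℝ) / n := ⟨_, rfl⟩
  have hη0 : ∀ y, 0 ≤ η y := fun y => by rw [hη]; positivity
  have hη1 : ∀ y, η y ≤ 1 := fun y => by
    rw [hη]
    simp only
    rw [div_le_one hn0]
    exact_mod_cast clEta_le m x₀ n y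
  have hηk : ∀ y, (η y - η (m.k y)) ^ 2 ≤ 1 / (n : ℝ) ^ 2 := fun y => by
    have h1 : (clEta m x₀ n y : ℝ) ≤ clEta m x₀ n (m.k y) + 1 := by exact_mod_cast clEta_k m x₀ n y
    have h2 : (clEta m x₀ n (m.k y) : ℝ) ≤ clEta m x₀ n y + 1 := by
      have h3 := clEta_k m x₀ n (m.k y)
      rw [m.k_k] at h3
      exact_mod_cast h3
    have h4 : ((clEta m x₀ n y : ℝ) - clEta m x₀ n (m.k y)) ^ 2 ≤ 1 := by nlinarith
    have h5 : (η y - η (m.k y)) ^ 2 = ((clEta m x₀ n y : ℝ) - clEta m x₀ n (m.k y)) ^ 2 / (n : ℝ) ^ 2 := by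
      rw [hη]
      field_simp
    rw [h5]
    exact div_le_div_of_nonneg_right h4 (by positivity)
  refine ⟨fun y => u y * η y, fun y => ?_, ?_, fun y hy => ?_, ?_⟩
  · show u (m.r y) * η (m.r y) = u y * η y
    rw [hu1 y, hη]
    simp only [clEta_r]
  · show u x₀ * η x₀ = 1
    rw [hu2, hη]
    simp only [clEta_self]
    rw [div_self hn0.ne', one_mul]
  · show u y * η y = 0
    rw [hη]
    simp only [clEta_out m x₀ n hy]
    simp
  · rw [finsum_eq_sum_of_fintype]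
    have hpt : ∀ y : X, (u y * η y - u (m.k y) * η (m.k y)) ^ 2 ≤
        2 * (u y - u (m.k y)) ^ 2 + 2 * (1 / (n : ℝ) ^ 2) * u (m.k y) ^ 2 := by
      intro y
      have h1 : u y * η y - u (m.k y) * η (m.k y) =
          η y * (u y - u (m.k y)) + u (m.k y) * (η y - η (m.k y)) := by ring
      have h2 : (η y * (u y - u (m.k y)) + u (m.k y) * (η y - η (m.k y))) ^ 2 ≤
          2 * (η y * (u y - u (m.k y))) ^ 2 + 2 * (u (m.k y) * (η y - η (m.k y))) ^ 2 := by
        nlinarith [sq_nonneg (η y * (u y - u (m.k y)) - u (m.k y) * (η y - η (m.k y)))]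
      have h3 : (η y * (u y - u (m.k y))) ^ 2 ≤ (u y - u (m.k y)) ^ 2 := by
        rw [mul_pow]
        have h4 : η y ^ 2 ≤ 1 := pow_le_one₀ (hη0 y) (hη1 y)
        exact mul_le_of_le_one_left (sq_nonneg _) h4
      have h5 : (u (m.k y) * (η y - η (m.k y))) ^ 2 ≤ 1 / (n : ℝ) ^ 2 * u (m.k y) ^ 2 := by
        rw [mul_pow, mul_comm]
        exact mul_le_mul_of_nonneg_right (hηk y) (sq_nonneg _)
      rw [h1]
      nlinarith
    have hsum : ∑ y : X, (u y * η y - u (m.k y) * η (m.k y)) ^ 2 ≤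
        2 * ∑ y : X, (u y - u (m.k y)) ^ 2 + 2 * (1 / (n : ℝ) ^ 2) * ∑ y : X, u y ^ 2 := by
      refine (Finset.sum_le_sum fun y _ => hpt y).trans (le_of_eq ?_)
      rw [Finset.sum_add_distrib, ← Finset.mul_sum, ← Finset.mul_sum]
      congr 2
      exact Equiv.sum_comp m.k fun y => u y ^ 2
    have hpos : 0 ≤ 1 / (n : ℝ) ^ 2 * ∑ y : X, u y ^ 2 :=
      mul_nonneg (by positivity) (Finset.sum_nonneg fun y _ => sq_nonneg _)
    simp only [CMap.En] at he
    nlinarith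

end UIPQ
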