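import Pool.Agent.Lib.UIPQ.C.Iso

/-!
# LowIso: transfer of cut-off functions by ball isomorphisms; renaming (est. 110 lines)

PROOF of `lowCond_of_ballIso`. `e : BIso (n + 1) m x₀ m' x₀'`, `BD j`, `BD' j` the balls, `w'` the function on `X'`. Let
`w y = w' (e y)` if `y ∈ BD n`, `0` otherwise (classical). `w (m.r y) = w y`: `ballDarts_r`, `BIso.r`. `w x₀ = w' x₀' = 1`.
`w y = 0` outside `BD n`. Let `g x = (w x - w (m.k x)) ^ 2`, `g' x' = (w' x' - w' (m'.k x')) ^ 2`.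
 * `support g ⊆ BD (n + 1)`: if `x ∉ BD (n + 1)` then `x ∉ BD n` and `m.k x ∉ BD n` (`ballDarts_k`, `k_k`); same for `g'`.
 * `g x = g' (e x)` for `x ∈ BD (n + 1)`: `w x = w' (e x)` (if `x ∉ BD n` then `e x ∉ BD' n` by `BIso.ball`, both are `0`), and
   `w (m.k x) = w' (m'.k (e x))`: if `m.k x ∈ BD (n + 1)` use `BIso.k_eq` and the previous formula; otherwise `m'.k (e x) ∉ BD' (n + 1)`
   (`BIso.k_mem`) and both are `0`.
So `∑ᶠ x, g x = ∑ᶠ x ∈ BD (n+1), g x = ∑ᶠ x' ∈ BD' (n+1), g' x' = ∑ᶠ x', g' x'` (`finsum_mem_eq_of_bijOn`, and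
`finsum_mem_univ`, `finsum_mem_inter_support`-type lemmas for the restriction to a set that contains the support).
-/

set_option autoImplicit false

namespace UIPQ

private theorem LowIso_finsum {X : Type} (m : CMap X) (x₀ : X) (n : ℕ) (w : X → ℝ)
    (hout : ∀ y, y ∉ m.ballDarts x₀ n → w y = 0) :
    ∑ᶠ x, (w x - w (m.k x)) ^ 2 = ∑ᶠ x ∈ m.ballDarts x₀ (n + 1), (w x - w (m.k x)) ^ 2 := by
  rw [← finsum_mem_univ]
  refine finsum_mem_inter_support_eq' _ _ _ fun x hx => ⟨fun _ => ?_, fun _ => Set.mem_univ _⟩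
  by_contra hc
  refine hx ?_
  have h1 : w x = 0 := hout x fun h => hc (ballDarts_succ m x₀ n h)
  have h2 : w (m.k x) = 0 := hout (m.k x) fun h => hc (by
    have := ballDarts_k h
    rwa [m.k_k] at this)
  show (w x - w (m.k x)) ^ 2 = 0
  rw [h1, h2]
  norm_num

theorem lowCond_of_ballIso {X X' : Type} {m : CMap X} {m' : CMap X'} {x₀ : X} {x₀' : X'} {n : ℕ}
    {a : ℝ} (h : BallIso (n + 1) m x₀ m' x₀') (hl : m'.LowCond x₀' n a) : m.LowCond x₀ n a := by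
  classical
  obtain ⟨e, he⟩ := ballIso_iff.1 h
  obtain ⟨w', hr', h1', h0', hE'⟩ := hl
  obtain ⟨w, hw⟩ : ∃ w : X → ℝ, w = fun y => if y ∈ m.ballDarts x₀ n then w' (e y) else 0 :=
    ⟨_, rfl⟩
  have hin : ∀ y ∈ m.ballDarts x₀ n, w y = w' (e y) := fun y hy => by
    rw [hw]; exact if_pos hy
  have hout : ∀ y, y ∉ m.ballDarts x₀ n → w y = 0 := fun y hy => by
    rw [hw]; exact if_neg hy
  have hsub : m.ballDarts x₀ n ⊆ m.ballDarts x₀ (n + 1) := ballDarts_succ m x₀ n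
  have hval : ∀ x ∈ m.ballDarts x₀ (n + 1), w x = w' (e x) := by
    intro x hx
    by_cases hxn : x ∈ m.ballDarts x₀ n
    · exact hin x hxn
    · rw [hout x hxn, h0' _ fun hc => hxn ((he.ball (Nat.le_succ n) hx).2 hc)]
  have hvalk : ∀ x ∈ m.ballDarts x₀ (n + 1), w (m.k x) = w' (m'.k (e x)) := by
    intro x hx
    by_cases hk : m.k x ∈ m.ballDarts x₀ (n + 1)
    · rw [hval _ hk, he.k_eq hx hk]
    · rw [hout _ fun hc => hk (hsub hc),
        h0' _ fun hc => hk ((he.k_mem hx).2 (ballDarts_succ m' x₀' n hc))]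
  refine ⟨w, fun x => ?_, ?_, hout, ?_⟩
  · by_cases hx : x ∈ m.ballDarts x₀ n
    · rw [hin _ (ballDarts_r.2 hx), hin x hx, he.r x (hsub hx), hr']
    · rw [hout _ fun hc => hx (ballDarts_r.1 hc), hout x hx]
  · rw [hin x₀ (self_mem_ballDarts m x₀ n), he.root, h1']
  · have hE : ∑ᶠ x, (w x - w (m.k x)) ^ 2 = ∑ᶠ x, (w' x - w' (m'.k x)) ^ 2 := by
      rw [LowIso_finsum m x₀ n w hout, LowIso_finsum m' x₀' n w' h0']
      refine finsum_mem_eq_of_bijOn e he.bij fun x hx => ?_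
      rw [hval x hx, hvalk x hx]
    rw [hE]
    exact hE'

end UIPQ
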