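import Pool.Agent.Lib.UIPQ.C.FinBall
import Pool.Agent.Lib.UIPQ.BDefs

/-!
# Transfer: from uniform quadrangulations to the local limit

The rooted finite models are the elements of `Mod`. Those whose ball is seen in the event `A` are divided
into classes (balls of radius `R` isomorphic). The classes give disjoint events, for the limit and for the
finite quadrangulations; the sum of their probabilities for the quadrangulations with `n + 1` faces is at
most `unifProb n (E n)`.
-/

set_option autoImplicit false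

namespace UIPQ

open MeasureTheory Filter

variable {Ω : Type} [MeasurableSpace Ω] {P : Measure Ω} [IsProbabilityMeasure P] {M : Ω → CMap ℕ}

namespace TransferAux

/-- the rooted finite maps -/
abbrev Mod : Type := Σ s : ℕ, CMap (Fin s) × Fin s

theorem unifProb_nonneg (n : ℕ) (E : CMap (Fin (4 * n + 4)) → Fin (4 * n + 4) → Prop) :
    0 ≤ unifProb n E := by
  unfold unifProb
  positivity

theorem sum_unifProb_le {ι : Type} (s : Finset ι) (n : ℕ)
    (F : ι → CMap (Fin (4 * n + 4)) → Fin (4 * n + 4) → Prop)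
    (E : CMap (Fin (4 * n + 4)) → Fin (4 * n + 4) → Prop)
    (hdisj : ∀ i ∈ s, ∀ j ∈ s, i ≠ j → ∀ m, F i m 0 → F j m 0 → False)
    (hsub : ∀ i ∈ s, ∀ m ∈ Quads n, F i m 0 → E m 0) :
    ∑ i ∈ s, unifProb n (F i) ≤ unifProb n E := by
  classical
  unfold unifProb
  rw [← Finset.sum_div]
  refine div_le_div_of_nonneg_right ?_ (Nat.cast_nonneg _)
  have key : ∑ i ∈ s, ({m ∈ Quads n | F i m 0}.ncard) ≤ {m ∈ Quads n | E m 0}.ncard := by
    have h1 : ∀ i ∈ s, ({m ∈ Quads n | F i m 0}.ncard) =
        (Set.toFinite {m ∈ Quads n | F i m 0}).toFinset.card :=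
      fun i _ => Set.ncard_eq_toFinset_card _ _
    rw [Finset.sum_congr rfl h1, Set.ncard_eq_toFinset_card _ (Set.toFinite _),
      ← Finset.card_biUnion]
    · apply Finset.card_le_card
      intro m hm
      rw [Finset.mem_biUnion] at hm
      obtain ⟨i, hi, hm⟩ := hm
      rw [Set.Finite.mem_toFinset] at hm ⊢
      exact ⟨hm.1, hsub i hi m hm.1 hm.2⟩
    · intro i hi j hj hij
      rw [Function.onFun, Finset.disjoint_left]
      intro m hm hm'
      rw [Set.Finite.mem_toFinset] at hm hm'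
      exact hdisj i hi j hj hij m hm.2 hm'.2
  exact_mod_cast key

end TransferAux

open TransferAux

theorem transfer (h : IsUIPQ P M) (R : ℕ) (A : Set Ω) (hA : ∀ ω ∈ A, (M ω).LocFinite)
    (E : (n : ℕ) → CMap (Fin (4 * n + 4)) → Fin (4 * n + 4) → Prop)
    (hE : ∀ ω ∈ A, ∀ n, ∀ m ∈ Quads n, BallIso R (M ω) 0 m 0 → E n m 0)
    (b : ℝ) (hb : ∃ᶠ n in atTop, unifProb n (E n) ≤ b) : P A ≤ ENNReal.ofReal b := by
  classical
  -- nonnegativity of `b`
  have hb0 : 0 ≤ b := by
    obtain ⟨n, hn⟩ := hb.exists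
    exact (unifProb_nonneg n _).trans hn
  -- the models seen in `A`
  let Cc : Set Mod := {t | ∃ ω ∈ A, BallIso R (M ω) 0 t.2.1 t.2.2}
  let S : Setoid Cc :=
    { r := fun t t' => BallIso R t.1.2.1 t.1.2.2 t'.1.2.1 t'.1.2.2
      iseqv := ⟨fun t => BallIso.refl R _ _, fun h => h.symm, fun h h' => h.trans h'⟩ }
  have : Countable Cc := inferInstance
  have : Countable (Quotient S) := inferInstance
  let rep : Quotient S → Mod := fun q => (Quotient.out q).1
  let Ev : Quotient S → Set Ω := fun q => {ω | BallIso R (M ω) 0 (rep q).2.1 (rep q).2.2}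
  -- (1) covering
  have h1 : A ⊆ ⋃ q, Ev q := by
    intro ω hω
    obtain ⟨s, N, y, hN⟩ := exists_finite_model (M ω) 0 (hA ω hω) R
    let t : Cc := ⟨⟨s, N, y⟩, ω, hω, hN⟩
    refine Set.mem_iUnion.2 ⟨Quotient.mk S t, ?_⟩
    have h2 : S.r (Quotient.out (Quotient.mk S t)) t := Quotient.mk_out t
    exact BallIso.trans hN (BallIso.symm h2)
  -- (3) the finite events
  have h3 : ∀ (T : Finset (Quotient S)) (n : ℕ),
      ∑ q ∈ T, unifProb n (fun m x => BallIso R m x (rep q).2.1 (rep q).2.2) ≤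
        unifProb n (E n) := by
    intro T n
    refine sum_unifProb_le T n _ _ ?_ ?_
    · intro q _ q' _ hne m hm hm'
      apply hne
      have h4 : S.r (Quotient.out q) (Quotient.out q') := BallIso.trans (BallIso.symm hm) hm'
      have h5 := Quotient.sound (s := S) h4
      rwa [Quotient.out_eq, Quotient.out_eq] at h5
    · intro q _ m hmQ hm
      obtain ⟨ω, hω, hN⟩ := (Quotient.out q).2
      exact hE ω hω n m hmQ (BallIso.trans hN (BallIso.symm hm))
  -- (4) the limit
  have h4 : ∀ T : Finset (Quotient S), ∑ q ∈ T, (P (Ev q)).toReal ≤ b := by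
    intro T
    have h5 : Tendsto (fun n => ∑ q ∈ T, unifProb n
        (fun m x => BallIso R m x (rep q).2.1 (rep q).2.2)) atTop
        (nhds (∑ q ∈ T, (P (Ev q)).toReal)) :=
      tendsto_finsetSum _ fun q _ => h.lim R _ _ _
    have h6 : ∃ᶠ n in atTop, ∑ q ∈ T, unifProb n
        (fun m x => BallIso R m x (rep q).2.1 (rep q).2.2) ∈ Set.Iic b :=
      hb.mono fun n hn => (h3 T n).trans hn
    exact isClosed_Iic.mem_of_frequently_of_tendsto h6 h5
  -- (5) conclusion
  calc P A ≤ P (⋃ q, Ev q) := measure_mono h1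
    _ ≤ ∑' q, P (Ev q) := measure_iUnion_le _
    _ ≤ ENNReal.ofReal b := by
      rw [ENNReal.tsum_eq_iSup_sum]
      refine iSup_le fun T => ?_
      have h7 : ∑ q ∈ T, P (Ev q) ≠ ⊤ :=
        (ENNReal.sum_lt_top.2 fun q _ => measure_lt_top P _).ne
      rw [ENNReal.le_ofReal_iff_toReal_le h7 hb0, ENNReal.toReal_sum fun q _ => measure_ne_top P _]
      exact h4 T

theorem transfer_zero (h : IsUIPQ P M) (R : ℕ) (A : Set Ω) (hA : ∀ ω ∈ A, (M ω).LocFinite)
    (hE : ∀ ω ∈ A, ∀ n, ∀ m ∈ Quads n, ¬ BallIso R (M ω) 0 m 0) : P A = 0 := by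
  have h1 := transfer h R A hA (fun _ _ _ => False) hE 0
    (Eventually.frequently (Eventually.of_forall fun n => by simp [unifProb]))
  rw [ENNReal.ofReal_zero] at h1
  exact le_antisymm h1 bot_le

theorem eventually_quads (h : IsUIPQ P M) : ∀ᶠ n in atTop, (Quads n).Nonempty := by
  by_contra hcon
  rw [not_eventually] at hcon
  have h1 := transfer h 0 {ω | (M ω).LocFinite} (fun ω hω => hω) (fun _ _ _ => True)
    (fun _ _ _ _ _ _ => trivial) 0 (hcon.mono fun n hn => by
      rw [Set.not_nonempty_iff_eq_empty] at hn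
      simp [unifProb, hn])
  rw [ENNReal.ofReal_zero] at h1
  have h2 : P {ω | (M ω).LocFinite}ᶜ = 0 := h.locFinite
  have h3 : P Set.univ ≤ P {ω | (M ω).LocFinite} + P {ω | (M ω).LocFinite}ᶜ := by
    rw [← Set.union_compl_self {ω | (M ω).LocFinite}]
    exact measure_union_le _ _
  rw [h2, add_zero, measure_univ] at h3
  exact absurd (h3.trans h1) (by simp)

end UIPQ
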