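import Pool.Agent.Lib.UIPQ.B.Main
import Pool.Agent.Lib.UIPQ.C.CapLow
import Pool.Agent.Lib.UIPQ.C.LowIso
import Pool.Agent.Lib.UIPQ.C.Transfer

/-!
# Cond: almost surely there are cut-off functions of small energy for infinitely many radii (est. 150 lines)

PROOF. (1) Let `0 < ε` and let `C` be the constant of `thmB`, `a n = C / (2 * Real.log n)`. For `n ≥ 2`: `lam = 1 / n ^ 2 ≤ 1 / 2`,
`Real.log (1 / lam) = 2 * Real.log n > 0`. For infinitely many `N` (frequently; by `thmB` and `eventually_quads`: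
for every `N₀` there is `N ≥ N₀` with the property) we have `unifProb N (fun m x => a n < m.cap lam x) ≤ ε`, hence
`unifProb N (fun m x => ¬ m.LowCond x n (4 * a n)) ≤ ε` by `lowCond_of_cap` (`unifProb` is monotone in the event: `Set.ncard_le_ncard`, the set
of maps is finite). `transfer` with radius `n + 1`, `A n = {ω | (M ω).LocFinite ∧ ¬ (M ω).LowCond 0 n (4 * a n)}` and `lowCond_of_ballIso`
(contrapositive) gives `P (A n) ≤ ENNReal.ofReal ε` for all `n ≥ 2`.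
(2) Let `c = 1 / (2 * C)`; `4 * a n = 1 / (c * Real.log n)`. The set `{ω | (M ω).LocFinite ∧ ¬ ∃ᶠ n, (M ω).LowCond 0 n (1 / (c * Real.log n))}` is
contained in `⋃ N ≥ 2, ⋂ n ≥ N, A n`, a monotone union of sets of measure `≤ ENNReal.ofReal ε`; by continuity (`Monotone.measure_iUnion`,
no measurability needed) its measure is `≤ ENNReal.ofReal ε`.
(3) The exceptional set `{ω | (M ω).LocFinite ∧ ∀ c > 0, ¬ ∃ᶠ n, ...}` is contained in all these sets, so its measure is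
`≤ ENNReal.ofReal ε` for every `ε > 0`, so it is `0`. With `h.locFinite` this gives the statement.
-/

set_option autoImplicit false

namespace UIPQ

open MeasureTheory Filter

variable {Ω : Type} [MeasurableSpace Ω] {P : Measure Ω} [IsProbabilityMeasure P] {M : Ω → CMap ℕ}

private theorem cond_unifProb_mono (n : ℕ) {E E' : CMap (Fin (4 * n + 4)) → Fin (4 * n + 4) → Prop}
    (h : ∀ m, E m 0 → E' m 0) : unifProb n E ≤ unifProb n E' := by
  unfold unifProb
  refine div_le_div_of_nonneg_right ?_ (Nat.cast_nonneg _)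
  have h1 : ({m ∈ Quads n | E m 0}).ncard ≤ ({m ∈ Quads n | E' m 0}).ncard :=
    Set.ncard_le_ncard (fun m hm => ⟨hm.1, h m hm.2⟩) (Set.toFinite _)
  exact_mod_cast h1

private theorem cond_one (h : IsUIPQ P M) {ε C : ℝ} (hC : 0 < C)
    (hB : ∀ lam : ℝ, 0 < lam → lam ≤ 1 / 2 →
      ∀ N : ℕ, (∃ n ≥ N, (Quads n).Nonempty) → ∃ n ≥ N, (Quads n).Nonempty ∧
        unifProb n (fun m x => C / Real.log (1 / lam) < m.cap lam x) ≤ ε) (n : ℕ) (hn : 2 ≤ n) :
    P {ω | (M ω).LocFinite ∧ ¬ (M ω).LowCond 0 n (1 / (1 / (2 * C) * Real.log n))} ≤ ENNReal.ofReal ε := by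
  have hn0 : (2 : ℝ) ≤ n := by exact_mod_cast hn
  have hlog : 0 < Real.log n := Real.log_pos (by linarith)
  have hlam : (0 : ℝ) < 1 / (n : ℝ) ^ 2 := by positivity
  have hlam2 : (1 : ℝ) / (n : ℝ) ^ 2 ≤ 1 / 2 := by
    apply one_div_le_one_div_of_le (by norm_num)
    nlinarith
  have hl : Real.log (1 / (1 / (n : ℝ) ^ 2)) = 2 * Real.log n := by
    rw [one_div_one_div, Real.log_pow]
    norm_num
  have ha : 1 / (1 / (2 * C) * Real.log n) = 4 * (C / Real.log (1 / (1 / (n : ℝ) ^ 2))) := by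
    rw [hl]
    field_simp
    ring
  have ha0 : 0 < C / Real.log (1 / (1 / (n : ℝ) ^ 2)) := by
    rw [hl]
    positivity
  rw [ha]
  refine transfer h (n + 1) _ (fun ω hω => hω.1)
    (fun N m x => ¬ m.LowCond x n (4 * (C / Real.log (1 / (1 / (n : ℝ) ^ 2))))) ?_ ε ?_
  · intro ω hω N m _ hBI hl'
    exact hω.2 (lowCond_of_ballIso hBI hl')
  · rw [frequently_atTop]
    intro N₀
    obtain ⟨K, hK⟩ := eventually_atTop.1 (eventually_quads h)
    obtain ⟨N, hN, -, hN2⟩ := hB (1 / (n : ℝ) ^ 2) hlam hlam2 N₀ ⟨max K N₀, le_max_right _ _, hK _ (le_max_left _ _)⟩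
    refine ⟨N, hN, le_trans (cond_unifProb_mono N fun m hm => ?_) hN2⟩
    by_contra hle
    rw [not_lt] at hle
    exact hm (lowCond_of_cap m 0 n (by omega) _ ha0 hle)

private theorem cond_two (h : IsUIPQ P M) {ε : ℝ} (hε : 0 < ε) :
    P {ω | (M ω).LocFinite ∧ ∀ c : ℝ, 0 < c → ¬ ∃ᶠ n : ℕ in atTop, (M ω).LowCond 0 n (1 / (c * Real.log n))} ≤
      ENNReal.ofReal ε := by
  obtain ⟨C, hC, hB⟩ := thmB ε hε
  obtain ⟨A, hA⟩ : ∃ A : ℕ → Set Ω, A = fun n => {ω | (M ω).LocFinite ∧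
    ¬ (M ω).LowCond 0 n (1 / (1 / (2 * C) * Real.log n))} := ⟨_, rfl⟩
  have hPA : ∀ n, 2 ≤ n → P (A n) ≤ ENNReal.ofReal ε := by
    intro n hn
    rw [hA]
    exact cond_one h hC hB n hn
  obtain ⟨D, hD⟩ : ∃ D : ℕ → Set Ω, D = fun N => {ω | ∀ n, N ≤ n → 2 ≤ n → ω ∈ A n} := ⟨_, rfl⟩
  have hmono : Monotone D := by
    intro N N' hNN ω hω
    rw [hD] at hω ⊢
    exact fun n hn hn2 => hω n (hNN.trans hn) hn2
  have hsub : {ω | (M ω).LocFinite ∧ ∀ c : ℝ, 0 < c → ¬ ∃ᶠ n : ℕ in atTop,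
      (M ω).LowCond 0 n (1 / (c * Real.log n))} ⊆ ⋃ N, D N := by
    rintro ω ⟨h1, h2⟩
    have h3 := h2 (1 / (2 * C)) (by positivity)
    rw [not_frequently, eventually_atTop] at h3
    obtain ⟨N, hN⟩ := h3
    refine Set.mem_iUnion.2 ⟨N, ?_⟩
    rw [hD]
    intro n hn _
    rw [hA]
    exact ⟨h1, hN n hn⟩
  refine (measure_mono hsub).trans ?_
  rw [hmono.measure_iUnion]
  refine iSup_le fun N => ?_
  refine (measure_mono ?_).trans (hPA (max N 2) (le_max_right _ _))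
  intro ω hω
  rw [hD] at hω
  exact hω _ (le_max_left _ _) (le_max_right _ _)

theorem ae_lowCond (h : IsUIPQ P M) :
    ∀ᵐ ω ∂P, ∃ c : ℝ, 0 < c ∧ ∃ᶠ n : ℕ in atTop, (M ω).LowCond 0 n (1 / (c * Real.log n)) := by
  have h0 : P {ω | (M ω).LocFinite ∧ ∀ c : ℝ, 0 < c → ¬ ∃ᶠ n : ℕ in atTop,
      (M ω).LowCond 0 n (1 / (c * Real.log n))} = 0 := by
    by_contra hne
    have hpos := ENNReal.toReal_pos hne (measure_ne_top P _)
    have h1 := cond_two h (half_pos hpos)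
    rw [← ENNReal.ofReal_toReal (measure_ne_top P {ω | (M ω).LocFinite ∧ ∀ c : ℝ, 0 < c →
      ¬ ∃ᶠ n : ℕ in atTop, (M ω).LowCond 0 n (1 / (c * Real.log n))}),
      ENNReal.ofReal_le_ofReal_iff (by positivity)] at h1
    rw [ENNReal.toReal_ofReal hpos.le] at h1
    linarith
  filter_upwards [h.locFinite, measure_eq_zero_iff_ae_notMem.1 h0] with ω h1 h2
  by_contra h3
  exact h2 ⟨h1, fun c hc hf => h3 ⟨c, hc, hf⟩⟩

end UIPQ
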