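import Pool.Agent.Lib.UIPQ.C.Transfer

/-!
# Face: almost surely all faces have four sides (est. 60 lines)

PROOF. By `ae_all_iff` fix `x : ℕ`. Almost every `ω` is connected and locally finite. It is enough that for every `R` the set
`A R = {ω | (M ω).LocFinite ∧ x ∈ (M ω).ballDarts 0 R ∧ f (f (f (f x))) ≠ x}` is null (`measure_iUnion_null`,
`exists_ballDarts` gives an `R` for connected maps). `transfer_zero` with radius `R + 4`: let `m ∈ Quads n` and
`BallIso (R + 4) (M ω) 0 m 0`, with `e` (`ballIso_iff`). `BIso.f_eq` four times (`x ∈ ballDarts R`, `f x ∈ ballDarts (R+1)`, ...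
by `ballDarts_f`): `e (f (f (f (f x)))) = m.f (m.f (m.f (m.f (e x)))) = e x`, because `m.f` has minimal period `4` at `e x`
(`hq.face4`, `Function.iterate_minimalPeriod`). Both darts are in `ballDarts 0 (R+4)`, `e` is injective there (`h.bij.injOn`):
`f (f (f (f x))) = x`, contradiction.
-/

set_option autoImplicit false

namespace UIPQ

open MeasureTheory Filter

variable {Ω : Type} [MeasurableSpace Ω] {P : Measure Ω} [IsProbabilityMeasure P] {M : Ω → CMap ℕ}

theorem ae_face (h : IsUIPQ P M) :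
    ∀ᵐ ω ∂P, ∀ x, (M ω).f ((M ω).f ((M ω).f ((M ω).f x))) = x := by
  rw [ae_all_iff]
  intro x
  have key : ∀ R : ℕ, P {ω | (M ω).LocFinite ∧ x ∈ (M ω).ballDarts 0 R ∧
      (M ω).f ((M ω).f ((M ω).f ((M ω).f x))) ≠ x} = 0 := by
    intro R
    refine transfer_zero h (R + 4) _ (fun ω hω => hω.1) ?_
    rintro ω ⟨-, hx, hne⟩ n m hm hiso
    obtain ⟨e, he⟩ := ballIso_iff.1 hiso
    apply hne
    have x1 := ballDarts_f hx
    have x2 := ballDarts_f x1
    have x3 := ballDarts_f x2
    have x4 := ballDarts_f x3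
    have e4 : e ((M ω).f ((M ω).f ((M ω).f ((M ω).f x)))) = m.f (m.f (m.f (m.f (e x)))) := by
      rw [he.f_eq (by omega) x3, he.f_eq (by omega) x2, he.f_eq (by omega) x1,
        he.f_eq (by omega) hx]
    have e5 : m.f (m.f (m.f (m.f (e x)))) = e x := by
      have h1 : m.f^[Function.minimalPeriod m.f (e x)] (e x) = e x := Function.iterate_minimalPeriod
      have hq : m.IsQuad := hm
      rw [hq.face4 (e x)] at h1
      exact h1
    exact he.bij.injOn x4 (ballDarts_mono _ _ (by omega) hx) (by rw [e4, e5])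
  have hall : ∀ᵐ ω ∂P, ∀ R : ℕ, ω ∉ {ω | (M ω).LocFinite ∧ x ∈ (M ω).ballDarts 0 R ∧
      (M ω).f ((M ω).f ((M ω).f ((M ω).f x))) ≠ x} :=
    ae_all_iff.2 fun R => measure_eq_zero_iff_ae_notMem.1 (key R)
  filter_upwards [h.conn, h.locFinite, hall] with ω hc hl ha
  by_contra hne
  obtain ⟨R, hR⟩ := exists_ballDarts hc 0 x
  exact ha R ⟨hl, hR, hne⟩

end UIPQ
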