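import Pool.Agent.Lib.UIPQ.C.Iso

/-!
# FinBall: every ball of a locally finite map is the ball of a finite map (est. 220 lines)

PROOF. `B = m.ballDarts x₀ R` is finite (`ballDarts_finite`). Let `Y = B ⊕ P`, `P = {x ∈ B | m.k x ∉ B}`. Define `N` on `Y`:
`r (inl x) = inl (m.r x)` (`ballDarts_r`), `r (inr x) = inr x` (vertices of degree one); `k (inl x) = inl (m.k x)` if
`m.k x ∈ B`, and `= inr x` otherwise; `k (inr x) = inl x`. `N.k` is an involution without fixed points.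
`N` has the same ball: for `j ≤ R`, `N.ballDarts (inl x₀) j = inl '' (m.ballDarts x₀ j)` (as a subset of `Y`), by induction
on `j`: `j = 0`: `inl x` has the same vertex as `inl y` iff `x`, `y` have the same vertex in `m` (powers of `r`), and the
vertex of `inr x` is `{inr x}`. Step `j + 1 ≤ R`: a vertex adjacent to `inl z`, `z ∈ m.ballDarts x₀ j`: here
`m.k z ∈ m.ballDarts x₀ (j+1) ⊆ B` (`ballDarts_k`, `ballDarts_mono`), so `N.k (inl z) = inl (m.k z)`.
So `e x = inl x` for `x ∈ B` (arbitrary, e.g. `inl x₀`, otherwise) is a `BIso R m x₀ N (inl x₀)`. The condition on `k`: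
for `x, y ∈ B`, `m.k x = y` iff `N.k (inl x) = inl y`.
Finally `Y` is finite: with `s = Nat.card Y` and `σ : Y ≃ Fin s` (`Finite.equivFin`) transport `N` to `Fin s`
(`r' = σ⁻¹ ; r ; σ`, i.e. `σ.permCongr N.r`, same for `k`); `σ` is a ball isomorphism of every radius (show first that `σ`
maps `ballDarts` onto `ballDarts`, induction on the radius).
-/

set_option autoImplicit false

namespace UIPQ

private theorem FB_zpow {A A' : Type} {r : Equiv.Perm A} {r' : Equiv.Perm A'} {φ : A → A'}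
    (h : ∀ a, φ (r a) = r' (φ a)) (i : ℤ) (a : A) : φ ((r ^ i) a) = (r' ^ i) (φ a) := by
  induction i with
  | zero => simp
  | succ i ih =>
    have h2 : (r ^ ((i : ℤ) + 1)) a = r ((r ^ (i : ℤ)) a) := by
      rw [add_comm, zpow_add, zpow_one, Equiv.Perm.mul_apply]
    have h3 : (r' ^ ((i : ℤ) + 1)) (φ a) = r' ((r' ^ (i : ℤ)) (φ a)) := by
      rw [add_comm, zpow_add, zpow_one, Equiv.Perm.mul_apply]
    rw [h2, h3, h, ih]
  | pred i ih =>
    have h2 : r ((r ^ (-(i : ℤ) - 1)) a) = (r ^ (-(i : ℤ))) a := by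
      rw [← Equiv.Perm.mul_apply, ← zpow_one_add]
      congr 2
      ring
    have h3 : r' ((r' ^ (-(i : ℤ) - 1)) (φ a)) = (r' ^ (-(i : ℤ))) (φ a) := by
      rw [← Equiv.Perm.mul_apply, ← zpow_one_add]
      congr 2
      ring
    apply r'.injective
    rw [h3, ← h, h2, ih]

private theorem FB_same {A A' : Type} {r : Equiv.Perm A} {r' : Equiv.Perm A'} {φ : A → A'}
    (h : ∀ a, φ (r a) = r' (φ a)) (hi : Function.Injective φ) (a b : A) :
    r'.SameCycle (φ a) (φ b) ↔ r.SameCycle a b := by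
  constructor
  · rintro ⟨i, hi'⟩
    refine ⟨i, hi ?_⟩
    rw [FB_zpow h, hi']
  · rintro ⟨i, hi'⟩
    refine ⟨i, ?_⟩
    rw [← FB_zpow h, hi']

section Model
variable {X : Type} (m : CMap X) (x₀ : X) (R : ℕ)

/-- the darts of the ball -/
private abbrev FBb : Type := {x // x ∈ m.ballDarts x₀ R}

/-- the darts of the ball whose reversals are outside -/
private abbrev FBp : Type := {x : FBb m x₀ R // m.k x.1 ∉ m.ballDarts x₀ R}

private noncomputable def FBr : Equiv.Perm (FBb m x₀ R) :=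
  Equiv.ofBijective (fun x => (⟨m.r x.1, ballDarts_r.2 x.2⟩ : FBb m x₀ R)) ⟨fun a b hab => by
    have := congrArg Subtype.val hab
    exact Subtype.ext (m.r.injective this), fun b => by
    refine ⟨⟨m.r.symm b.1, ?_⟩, ?_⟩
    · rw [← ballDarts_r, Equiv.apply_symm_apply]; exact b.2
    · exact Subtype.ext (Equiv.apply_symm_apply _ _)⟩

private theorem FBr_val (x : FBb m x₀ R) : (FBr m x₀ R x).1 = m.r x.1 := rfl

open Classical in
private noncomputable def FBk : FBb m x₀ R ⊕ FBp m x₀ R → FBb m x₀ R ⊕ FBp m x₀ R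
  | Sum.inl x => if h : m.k x.1 ∈ m.ballDarts x₀ R then Sum.inl ⟨m.k x.1, h⟩ else Sum.inr ⟨x, h⟩
  | Sum.inr p => Sum.inl p.1

private theorem FBk_pos (x : FBb m x₀ R) (h : m.k x.1 ∈ m.ballDarts x₀ R) :
    FBk m x₀ R (Sum.inl x) = Sum.inl ⟨m.k x.1, h⟩ := by
  simp only [FBk]
  exact dif_pos h

private theorem FBk_neg (x : FBb m x₀ R) (h : m.k x.1 ∉ m.ballDarts x₀ R) :
    FBk m x₀ R (Sum.inl x) = Sum.inr ⟨x, h⟩ := by
  simp only [FBk]
  exact dif_neg h

private theorem FBk_invol : Function.Involutive (FBk m x₀ R) := by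
  rintro (x | p)
  · by_cases h : m.k x.1 ∈ m.ballDarts x₀ R
    · rw [FBk_pos m x₀ R x h, FBk_pos m x₀ R _ (by simp only [m.k_k]; exact x.2)]
      congr 1
      exact Subtype.ext (m.k_k x.1)
    · rw [FBk_neg m x₀ R x h]
      rfl
  · show FBk m x₀ R (Sum.inl p.1) = _
    rw [FBk_neg m x₀ R p.1 p.2]

/-- the finite map: the ball with an edge to a vertex of degree one for every dart which leaves it -/
private noncomputable def FBn : CMap (FBb m x₀ R ⊕ FBp m x₀ R) where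
  r := Equiv.sumCongr (FBr m x₀ R) (Equiv.refl _)
  k := (FBk_invol m x₀ R).toPerm (FBk m x₀ R)
  k_k := fun y => FBk_invol m x₀ R y
  k_ne := by
    rintro (x | p) hx
    · by_cases h : m.k x.1 ∈ m.ballDarts x₀ R
      · have h1 : FBk m x₀ R (Sum.inl x) = Sum.inl x := hx
        rw [FBk_pos m x₀ R x h] at h1
        exact m.k_ne x.1 (congrArg Subtype.val (Sum.inl.inj h1))
      · have h1 : FBk m x₀ R (Sum.inl x) = Sum.inl x := hx
        rw [FBk_neg m x₀ R x h] at h1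
        cases h1
    · have h1 : (Sum.inl p.1 : FBb m x₀ R ⊕ FBp m x₀ R) = Sum.inr p := hx
      cases h1

private theorem FBn_k (y : FBb m x₀ R ⊕ FBp m x₀ R) : (FBn m x₀ R).k y = FBk m x₀ R y := rfl

private theorem FBn_rl (x : FBb m x₀ R) : (FBn m x₀ R).r (Sum.inl x) = Sum.inl (FBr m x₀ R x) := rfl

private theorem FBn_rr (p : FBp m x₀ R) : (FBn m x₀ R).r (Sum.inr p) = Sum.inr p := rfl

private theorem FBn_vert (x y : FBb m x₀ R) :
    (FBn m x₀ R).vert (Sum.inl x) = (FBn m x₀ R).vert (Sum.inl y) ↔ m.vert x.1 = m.vert y.1 := by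
  rw [vert_eq_iff, vert_eq_iff, FB_same (r := FBr m x₀ R) (φ := Sum.inl) (fun a => (FBn_rl m x₀ R a).symm)
    Sum.inl_injective, ← FB_same (r := FBr m x₀ R) (r' := m.r) (φ := Subtype.val) (fun a => rfl)
    Subtype.val_injective]

private theorem FBn_vertr (p : FBp m x₀ R) (x : FBb m x₀ R) :
    (FBn m x₀ R).vert (Sum.inr p) ≠ (FBn m x₀ R).vert (Sum.inl x) := by
  rw [Ne, vert_eq_iff]
  rintro ⟨i, hi⟩
  rw [Equiv.Perm.zpow_apply_eq_self_of_apply_eq_self (FBn_rr m x₀ R p)] at hi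
  cases hi

private theorem FBn_ball (hx : x₀ ∈ m.ballDarts x₀ R) : ∀ j ≤ R, ∀ y : FBb m x₀ R ⊕ FBp m x₀ R,
    (y ∈ (FBn m x₀ R).ballDarts (Sum.inl ⟨x₀, hx⟩) j ↔
      ∃ x : FBb m x₀ R, y = Sum.inl x ∧ x.1 ∈ m.ballDarts x₀ j) := by
  intro j
  induction j with
  | zero =>
    intro _ y
    rw [mem_ballDarts_zero]
    rcases y with x | p
    · rw [FBn_vert]
      constructor
      · intro h
        exact ⟨x, rfl, h⟩
      · rintro ⟨x', h1, h2⟩
        rw [Sum.inl.inj h1]; exact h2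
    · constructor
      · intro h
        exact absurd h (FBn_vertr m x₀ R p _)
      · rintro ⟨x', h1, -⟩
        cases h1
  | succ j ih =>
    intro hj y
    have ih' := ih ((Nat.le_succ j).trans hj)
    have hB : ∀ x : FBb m x₀ R, x.1 ∈ m.ballDarts x₀ j → m.k x.1 ∈ m.ballDarts x₀ R := fun x hx' =>
      ballDarts_mono m x₀ hj (ballDarts_k hx')
    rw [mem_ballDarts_succ]
    constructor
    · rintro (h | ⟨z, hz, h⟩)
      · obtain ⟨x, h1, h2⟩ := (ih' y).1 h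
        exact ⟨x, h1, Or.inl h2⟩
      · obtain ⟨x, rfl, h2⟩ := (ih' z).1 hz
        rw [FBn_k, FBk_pos m x₀ R x (hB x h2)] at h
        rcases y with x' | p
        · refine ⟨x', rfl, Or.inr ⟨x.1, h2, ?_⟩⟩
          exact (FBn_vert m x₀ R _ _).1 h
        · exact absurd h.symm (FBn_vertr m x₀ R p _)
    · rintro ⟨x, rfl, h | ⟨z, hz, h⟩⟩
      · exact Or.inl ((ih' _).2 ⟨x, rfl, h⟩)
      · have hzB : z ∈ m.ballDarts x₀ R := ballDarts_mono m x₀ ((Nat.le_succ j).trans hj) hz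
        refine Or.inr ⟨Sum.inl ⟨z, hzB⟩, (ih' _).2 ⟨⟨z, hzB⟩, rfl, hz⟩, ?_⟩
        rw [FBn_k, FBk_pos m x₀ R ⟨z, hzB⟩ (hB ⟨z, hzB⟩ hz)]
        exact (FBn_vert m x₀ R _ _).2 h

open Classical in
private theorem FBn_iso (hx : x₀ ∈ m.ballDarts x₀ R) :
    BIso R m x₀ (FBn m x₀ R) (Sum.inl ⟨x₀, hx⟩)
      (fun x => if h : x ∈ m.ballDarts x₀ R then Sum.inl ⟨x, h⟩ else Sum.inl ⟨x₀, hx⟩) := by
  have he : ∀ x (h : x ∈ m.ballDarts x₀ R),
      (if h : x ∈ m.ballDarts x₀ R then (Sum.inl ⟨x, h⟩ : FBb m x₀ R ⊕ FBp m x₀ R)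
        else Sum.inl ⟨x₀, hx⟩) = Sum.inl ⟨x, h⟩ := fun x h => dif_pos h
  refine ⟨⟨fun x h => ?_, fun x h y h' hxy => ?_, fun y hy => ?_⟩, ?_, fun x h => ?_,
    fun x h y h' => ?_⟩
  · show (if h : x ∈ m.ballDarts x₀ R then (Sum.inl ⟨x, h⟩ : FBb m x₀ R ⊕ FBp m x₀ R)
        else Sum.inl ⟨x₀, hx⟩) ∈ _
    rw [he x h]
    exact (FBn_ball m x₀ R hx R le_rfl _).2 ⟨⟨x, h⟩, rfl, h⟩
  · simp only at hxy
    rw [he x h, he y h'] at hxy
    exact congrArg Subtype.val (Sum.inl.inj hxy)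
  · obtain ⟨x, rfl, h⟩ := (FBn_ball m x₀ R hx R le_rfl _).1 hy
    exact ⟨x.1, h, he x.1 h⟩
  · exact he x₀ hx
  · rw [he x h, he (m.r x) (ballDarts_r.2 h)]
    rfl
  · rw [he x h, he y h', FBn_k]
    by_cases hk : m.k x ∈ m.ballDarts x₀ R
    · rw [FBk_pos m x₀ R ⟨x, h⟩ hk]
      constructor
      · rintro rfl
        rfl
      · intro h1
        exact congrArg Subtype.val (Sum.inl.inj h1)
    · rw [FBk_neg m x₀ R ⟨x, h⟩ hk]
      constructor
      · rintro rfl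
        exact absurd h' hk
      · intro h1
        cases h1

end Model

/-- transport along a bijection -/
private def FBt {Y Z : Type} (N : CMap Y) (σ : Y ≃ Z) : CMap Z where
  r := σ.permCongr N.r
  k := σ.permCongr N.k
  k_k := fun z => by simp [Equiv.permCongr_apply, N.k_k]
  k_ne := fun z h => by
    rw [Equiv.permCongr_apply] at h
    exact N.k_ne _ ((Equiv.eq_symm_apply σ).2 h)

private theorem FBt_r {Y Z : Type} (N : CMap Y) (σ : Y ≃ Z) (y : Y) : (FBt N σ).r (σ y) = σ (N.r y) := by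
  simp [FBt, Equiv.permCongr_apply]

private theorem FBt_k {Y Z : Type} (N : CMap Y) (σ : Y ≃ Z) (y : Y) : (FBt N σ).k (σ y) = σ (N.k y) := by
  simp [FBt, Equiv.permCongr_apply]

private theorem FBt_vert {Y Z : Type} (N : CMap Y) (σ : Y ≃ Z) (a b : Y) :
    (FBt N σ).vert (σ a) = (FBt N σ).vert (σ b) ↔ N.vert a = N.vert b := by
  rw [vert_eq_iff, vert_eq_iff, FB_same (r := N.r) (φ := σ) (fun a => (FBt_r N σ a).symm) σ.injective]

private theorem FBt_ball {Y Z : Type} (N : CMap Y) (σ : Y ≃ Z) (y₀ : Y) (j : ℕ) (y : Y) :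
    σ y ∈ (FBt N σ).ballDarts (σ y₀) j ↔ y ∈ N.ballDarts y₀ j := by
  induction j generalizing y with
  | zero => rw [mem_ballDarts_zero, mem_ballDarts_zero, FBt_vert]
  | succ j ih =>
    rw [mem_ballDarts_succ, mem_ballDarts_succ, ih]
    constructor
    · rintro (h | ⟨z, hz, h⟩)
      · exact Or.inl h
      · obtain ⟨w, rfl⟩ := σ.surjective z
        rw [FBt_k, FBt_vert] at h
        exact Or.inr ⟨w, (ih w).1 hz, h⟩
    · rintro (h | ⟨z, hz, h⟩)
      · exact Or.inl h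
      · refine Or.inr ⟨σ z, (ih z).2 hz, ?_⟩
        rw [FBt_k, FBt_vert]
        exact h

private theorem FBt_iso {Y Z : Type} (N : CMap Y) (σ : Y ≃ Z) (y₀ : Y) (R : ℕ) :
    BIso R N y₀ (FBt N σ) (σ y₀) σ := by
  refine ⟨⟨fun x h => (FBt_ball N σ y₀ R x).2 h, σ.injective.injOn, fun z hz => ?_⟩, rfl,
    fun x _ => (FBt_r N σ x).symm, fun x _ y _ => ?_⟩
  · obtain ⟨w, rfl⟩ := σ.surjective z
    exact ⟨w, (FBt_ball N σ y₀ R w).1 hz, rfl⟩
  · rw [FBt_k, σ.apply_eq_iff_eq]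

theorem exists_finite_model {X : Type} (m : CMap X) (x₀ : X) (hm : m.LocFinite) (R : ℕ) :
    ∃ (s : ℕ) (N : CMap (Fin s)) (y : Fin s), BallIso R m x₀ N y := by
  have hx := self_mem_ballDarts m x₀ R
  have hfin : Finite (FBb m x₀ R) := (ballDarts_finite hm x₀ R).to_subtype
  have hfinY : Finite (FBb m x₀ R ⊕ FBp m x₀ R) := inferInstance
  have h1 : BallIso R m x₀ (FBn m x₀ R) (Sum.inl ⟨x₀, hx⟩) := ballIso_iff.2 ⟨_, FBn_iso m x₀ R hx⟩
  have h2 := ballIso_iff.2 ⟨_, FBt_iso (FBn m x₀ R) (Finite.equivFin _) (Sum.inl ⟨x₀, hx⟩) R⟩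
  exact ⟨_, _, _, h1.trans h2⟩

end UIPQ
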