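import Pool.Agent.Lib.UIPQ.C.PLae

/-!
# Glue: cuts inside all balls give a cut (est. 100 lines)

PROOF. Let `G` be as in `PL`. The support is finite and every dart is in a ball (`exists_ballDarts`), so
`support G ⊆ ballDarts x₀ R₀` for some `R₀` (`ballDarts_mono`, finite set). For `R ≥ R₀` let `c_R` be given by `LocCut`; replacing
`c_R` by `c_R + c_R x₀` (a constant) we may assume `c_R x₀ = 0`.
UNIQUENESS: if `R ≤ S`, then `c_R x = c_S x` for all `x ∈ ballDarts x₀ R`: the function `d = c_R + c_S` satisfies `d (r y) = d y`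
for `y ∈ ballDarts x₀ R` and `d (k y) = d y` for `y, k y ∈ ballDarts x₀ R` (in `ZMod 2`: `G y = c_R y + c_R (k y) = c_S y + c_S (k y)`),
so `d` is constant along `joined_ball` (induction on the path; the steps are `k`, `r`, `r⁻¹`, all darts in the ball) and
`d x = d x₀ = 0`.
Define `c x = c_R x` for `R = R₀ + (the least R with x ∈ ballDarts x₀ R)`. For every `x` and every large `R`, `c x = c_R x`. For given
`x` take `R` with `x, k x, r x ∈ ballDarts x₀ R` and `R` at least all the radii involved: `c (r x) = c x`, `G x = c x + c (k x)`.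
-/

set_option autoImplicit false

namespace UIPQ

private theorem joined_const_loc {X : Type} {m : CMap X} {S : Set X} {d : X → ZMod 2}
    (hr : ∀ z ∈ S, d (m.r z) = d z) (hk : ∀ z ∈ S, m.k z ∈ S → d (m.k z) = d z)
    {x y : X} (h : m.Joined S x y) : d y = d x := by
  unfold CMap.Joined at h
  induction h with
  | refl => rfl
  | tail _ h ih =>
    obtain ⟨h1, h2, h3⟩ := h
    rw [← ih]
    rcases h3 with rfl | rfl | h3
    · exact hk _ h1 h2
    · exact hr _ h1
    · rw [h3] at h1 ⊢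
      exact (hr _ h2).symm

private theorem zmod2_aux : ∀ a b c d : ZMod 2, a + b = c + d → b + d = a + c := by decide

private theorem zmod2_aux2 : ∀ a b : ZMod 2, a + b = 0 → a = b := by decide

private theorem zmod2_aux3 : ∀ a b c : ZMod 2, a + b = a + c + (b + c) := by decide

theorem PL_of_loc {X : Type} (m : CMap X) (x₀ : X) (hc : m.Connected) (h : m.AllLocCut x₀) : m.PL := by
  intro G hfin hk hf
  classical
  choose ρ hρ using fun x => exists_ballDarts hc x₀ x
  obtain ⟨R₀, hR₀⟩ : ∃ R₀, Function.support G ⊆ m.ballDarts x₀ R₀ := by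
    obtain ⟨N, hN⟩ := (hfin.image ρ).bddAbove
    exact ⟨N, fun x hx => ballDarts_mono m x₀ (hN ⟨x, hx, rfl⟩) (hρ x)⟩
  have hloc : ∀ R, R₀ ≤ R → ∃ c : X → ZMod 2, c x₀ = 0 ∧
      (∀ x ∈ m.ballDarts x₀ R, c (m.r x) = c x) ∧
      ∀ x ∈ m.ballDarts x₀ R, m.k x ∈ m.ballDarts x₀ R → G x = c x + c (m.k x) := by
    intro R hR
    obtain ⟨c, h1, h2⟩ := h G hfin R (hR₀.trans (ballDarts_mono m x₀ hR)) hk hf
    refine ⟨fun x => c x + c x₀, CharTwo.add_self_eq_zero _, fun x hx => ?_, fun x hx hkx => ?_⟩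
    · show c (m.r x) + c x₀ = c x + c x₀
      rw [h1 x hx]
    · show G x = c x + c x₀ + (c (m.k x) + c x₀)
      rw [h2 x hx hkx]
      exact zmod2_aux3 _ _ _
  choose! c hc0 hcr hcG using hloc
  have huniq : ∀ R S, R₀ ≤ R → R ≤ S → ∀ x ∈ m.ballDarts x₀ R, c R x = c S x := by
    intro R S hR hRS x hx
    have hmono := ballDarts_mono m x₀ hRS
    have hd : (fun y => c R y + c S y) x = (fun y => c R y + c S y) x₀ := by
      refine joined_const_loc (d := fun y => c R y + c S y) (S := m.ballDarts x₀ R) ?_ ?_ (joined_ball hx)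
      · intro z hz
        show c R (m.r z) + c S (m.r z) = c R z + c S z
        rw [hcr R hR z hz, hcr S (hR.trans hRS) z (hmono hz)]
      · intro z hz hkz
        show c R (m.k z) + c S (m.k z) = c R z + c S z
        have e1 := hcG R hR z hz hkz
        have e2 := hcG S (hR.trans hRS) z (hmono hz) (hmono hkz)
        exact zmod2_aux _ _ _ _ (e1.symm.trans e2)
    have hd' : c R x + c S x = 0 := by
      have h1 : c R x + c S x = c R x₀ + c S x₀ := hd
      rw [h1, hc0 R hR, hc0 S (hR.trans hRS), add_zero]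
    exact zmod2_aux2 _ _ hd'
  have hlarge : ∀ x S, R₀ + ρ x ≤ S → c (R₀ + ρ x) x = c S x := fun x S hS =>
    huniq (R₀ + ρ x) S (Nat.le_add_right _ _) hS x
      (ballDarts_mono m x₀ (Nat.le_add_left _ _) (hρ x))
  refine ⟨fun x => c (R₀ + ρ x) x, fun x => ?_, fun x => ?_⟩
  · show c (R₀ + ρ (m.r x)) (m.r x) = c (R₀ + ρ x) x
    rw [hlarge (m.r x) (R₀ + ρ x + ρ (m.r x)) (by omega),
      hlarge x (R₀ + ρ x + ρ (m.r x)) (by omega)]
    exact hcr _ (by omega) x (ballDarts_mono m x₀ (by omega) (hρ x))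
  · show G x = c (R₀ + ρ x) x + c (R₀ + ρ (m.k x)) (m.k x)
    rw [hlarge (m.k x) (R₀ + ρ x + ρ (m.k x)) (by omega),
      hlarge x (R₀ + ρ x + ρ (m.k x)) (by omega)]
    exact hcG _ (by omega) x (ballDarts_mono m x₀ (by omega) (hρ x))
      (ballDarts_mono m x₀ (by omega) (hρ (m.k x)))

end UIPQ
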