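import Pool.Agent.Lib.UIPQ.B.Inv
import Pool.Agent.Lib.UIPQ.C.Iso

/-!
# Root: renaming the darts is a ball isomorphism; counting roots (est. 130 lines)

PROOF of `bIso_relabel`: first `m.vert x = m.vert y ↔ (m.relabel σ).vert (σ x) = (m.relabel σ).vert (σ y)` (`vert_eq_iff`,
`sameCycle_relabel`), then `x ∈ m.ballDarts x₀ j ↔ σ x ∈ (m.relabel σ).ballDarts (σ x₀) j` by induction on `j`
(`mem_ballDarts_succ`, `relabel_k`; every dart is `σ z`). The other fields: `relabel_r`, `relabel_k`, `σ.injective`.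
PROOF of `unifProb_le` (double counting): `N = 4 n + 4`, `X = Fin N`. All sets of maps are finite (instance
`Finite (CMap (Fin N))` in BDefs). For `x : X` the map `m ↦ m.relabel (Equiv.swap 0 x)` is an involution of the set of maps
(`relabel_trans`, `relabel_refl`) which preserves `Quads n` (`isQuad_relabel`) and sends `{m ∈ Quads n | E m 0}` into
`{m ∈ Quads n | E m x}` (`hinv`, `swap 0 x` maps `0` to `x`). So `a := {m ∈ Quads n | E m 0}.ncard ≤ {m ∈ Quads n | E m x}.ncard`
for every `x`. Summing over `x` and exchanging the sums (`Finset.sum_card_bipartiteAbove_eq_sum_card_bipartiteBelow` or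
`Finset.sum_comm` with indicators): `N * a ≤ ∑ m ∈ Quads n, {x | E m x}.ncard ≤ (Quads n).ncard * (b * N)`. Divide by `N > 0` and by
`(Quads n).ncard` (if it is `0`, `unifProb = 0 ≤ b`).
-/

set_option autoImplicit false

namespace UIPQ

theorem bIso_relabel {X X' : Type} (R : ℕ) (m : CMap X) (x₀ : X) (σ : X ≃ X') :
    BIso R m x₀ (m.relabel σ) (σ x₀) σ := by
  have hv : ∀ x y, (m.relabel σ).vert (σ x) = (m.relabel σ).vert (σ y) ↔ m.vert x = m.vert y := by
    intro x y
    rw [vert_eq_iff, vert_eq_iff]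
    exact sameCycle_relabel m σ x y
  have hb : ∀ j x, σ x ∈ (m.relabel σ).ballDarts (σ x₀) j ↔ x ∈ m.ballDarts x₀ j := by
    intro j
    induction j with
    | zero =>
      intro x
      rw [mem_ballDarts_zero, mem_ballDarts_zero]
      exact hv x x₀
    | succ j ih =>
      intro x
      rw [mem_ballDarts_succ, mem_ballDarts_succ, ih]
      constructor
      · rintro (h | ⟨z, hz, h⟩)
        · exact Or.inl h
        · obtain ⟨z, rfl⟩ := σ.surjective z
          rw [relabel_k, hv] at h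
          exact Or.inr ⟨z, (ih z).1 hz, h⟩
      · rintro (h | ⟨z, hz, h⟩)
        · exact Or.inl h
        · refine Or.inr ⟨σ z, (ih z).2 hz, ?_⟩
          rw [relabel_k, hv]
          exact h
  refine ⟨⟨fun x hx => (hb R x).2 hx, σ.injective.injOn, fun y hy => ?_⟩, rfl,
    fun x _ => (relabel_r m σ x).symm, fun x _ y _ => ?_⟩
  · obtain ⟨x, rfl⟩ := σ.surjective y
    exact ⟨x, (hb R x).1 hy, rfl⟩
  · rw [relabel_k]
    exact (σ.injective.eq_iff).symm

theorem unifProb_le (n : ℕ) (E : CMap (Fin (4 * n + 4)) → Fin (4 * n + 4) → Prop)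
    (hinv : ∀ (σ : Fin (4 * n + 4) ≃ Fin (4 * n + 4)) (m : CMap (Fin (4 * n + 4)))
      (x : Fin (4 * n + 4)), E m x → E (m.relabel σ) (σ x))
    (b : ℝ) (hb : 0 ≤ b)
    (h : ∀ m ∈ Quads n, ({x | E m x}.ncard : ℝ) ≤ b * (4 * n + 4)) : unifProb n E ≤ b := by
  classical
  let A : Fin (4 * n + 4) → Finset (CMap (Fin (4 * n + 4))) := fun x =>
    (QF n).filter (fun m => E m x)
  have hA : ∀ x, (A 0).card ≤ (A x).card := by
    intro x
    have hinj : Set.InjOn (fun m : CMap (Fin (4 * n + 4)) => m.relabel (Equiv.swap 0 x))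
        (A 0 : Set (CMap (Fin (4 * n + 4)))) := by
      intro m _ m' _ hmm
      have h1 : ∀ m : CMap (Fin (4 * n + 4)),
          (m.relabel (Equiv.swap 0 x)).relabel (Equiv.swap 0 x) = m := by
        intro m
        rw [relabel_trans]
        have h2 : (Equiv.swap (0 : Fin (4 * n + 4)) x).trans (Equiv.swap 0 x) = Equiv.refl _ := by
          ext y
          simp
        rw [h2, relabel_refl]
      have h3 : m.relabel (Equiv.swap 0 x) = m'.relabel (Equiv.swap 0 x) := hmm
      rw [← h1 m, ← h1 m', h3]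
    refine Finset.card_le_card_of_injOn _ ?_ hinj
    intro m hm
    have hm' : m ∈ (QF n).filter (fun m => E m 0) := hm
    rw [Finset.mem_filter, mem_QF] at hm'
    have h4 := hinv (Equiv.swap 0 x) m 0 hm'.2
    rw [Equiv.swap_apply_left] at h4
    have h5 : m.relabel (Equiv.swap 0 x) ∈ (QF n).filter (fun m => E m x) := by
      rw [Finset.mem_filter, mem_QF]
      exact ⟨isQuad_relabel m _ hm'.1, h4⟩
    exact h5
  have hn : ∀ m, ({x | E m x}.ncard) = (Finset.univ.filter (fun x => E m x)).card := by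
    intro m
    have h1 : {x | E m x} = ((Finset.univ.filter (fun x => E m x) :
        Finset (Fin (4 * n + 4))) : Set (Fin (4 * n + 4))) := by
      ext x
      simp
    rw [h1, Set.ncard_coe_finset]
  have hsum : ∑ x, ((A x).card : ℝ) = ∑ m ∈ QF n, ({x | E m x}.ncard : ℝ) := by
    have h1 : ∀ x, ((A x).card : ℝ) = ∑ m ∈ QF n, if E m x then (1 : ℝ) else 0 := by
      intro x
      rw [Finset.sum_ite, Finset.sum_const_zero, add_zero, Finset.sum_const, nsmul_eq_mul, mul_one]
    have h2 : ∀ m, ({x | E m x}.ncard : ℝ) = ∑ x, if E m x then (1 : ℝ) else 0 := by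
      intro m
      rw [hn, Finset.sum_ite, Finset.sum_const_zero, add_zero, Finset.sum_const, nsmul_eq_mul,
        mul_one]
    simp only [h1, h2]
    exact Finset.sum_comm
  have hle : ((4 * n + 4 : ℕ) : ℝ) * ((A 0).card : ℝ) ≤
      ((QF n).card : ℝ) * (b * (4 * n + 4)) := by
    calc ((4 * n + 4 : ℕ) : ℝ) * ((A 0).card : ℝ)
        = ∑ _x : Fin (4 * n + 4), ((A 0).card : ℝ) := by
          rw [Finset.sum_const, Finset.card_univ, Fintype.card_fin, nsmul_eq_mul]
      _ ≤ ∑ x, ((A x).card : ℝ) := Finset.sum_le_sum fun x _ => by exact_mod_cast hA x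
      _ = ∑ m ∈ QF n, ({x | E m x}.ncard : ℝ) := hsum
      _ ≤ ∑ m ∈ QF n, (b * (4 * n + 4)) := Finset.sum_le_sum fun m hm => h m (mem_QF.1 hm)
      _ = ((QF n).card : ℝ) * (b * (4 * n + 4)) := by rw [Finset.sum_const, nsmul_eq_mul]
  have hQ : (Quads n).ncard = (QF n).card := by
    have h1 : Quads n = ((QF n : Finset (CMap (Fin (4 * n + 4)))) :
        Set (CMap (Fin (4 * n + 4)))) := by
      ext m
      exact mem_QF.symm
    rw [h1, Set.ncard_coe_finset]
  have hE : {m ∈ Quads n | E m 0}.ncard = (A 0).card := by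
    have h1 : {m ∈ Quads n | E m 0} = ((A 0 : Finset (CMap (Fin (4 * n + 4)))) :
        Set (CMap (Fin (4 * n + 4)))) := by
      ext m
      have h2 : m ∈ A 0 ↔ m.IsQuad ∧ E m 0 := by
        change m ∈ (QF n).filter (fun m => E m 0) ↔ _
        rw [Finset.mem_filter, mem_QF]
      exact h2.symm
    rw [h1, Set.ncard_coe_finset]
  unfold unifProb
  rw [hQ, hE]
  have hN : (0 : ℝ) < 4 * n + 4 := by positivity
  have hle' : ((A 0).card : ℝ) ≤ b * ((QF n).card : ℝ) := by
    have h1 : ((4 * n + 4 : ℕ) : ℝ) = 4 * n + 4 := by push_cast; ring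
    rw [h1] at hle
    have h2 : (4 * (n : ℝ) + 4) * ((A 0).card : ℝ) ≤ (4 * (n : ℝ) + 4) * (b * ((QF n).card : ℝ)) := by
      linarith [hle]
    exact le_of_mul_le_mul_left h2 hN
  rcases Nat.eq_zero_or_pos (QF n).card with h0 | h0
  · rw [h0]
    simpa using hb
  · have h0' : (0 : ℝ) < ((QF n).card : ℝ) := by exact_mod_cast h0
    rw [div_le_iff₀ h0']
    exact hle'

end UIPQ
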