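import Pool.Agent.Lib.UIPQ.C.Big

/-!
# TwoInf: from finite sets of vertices to balls (est. 100 lines)

PROOF. Otherwise there are `D` finite, a `VSet`, and `x, y, z ∉ D` with infinite components in `Dᶜ`, pairwise not joined in `Dᶜ`. Every dart
is in a ball (`exists_ballDarts`), so `D ⊆ m.ballDarts x₀ r =: B` for some `r` (`D` finite, `ballDarts_mono`). Let `S = Bᶜ ⊆ Dᶜ`.
CLAIM: if the component `C = {w | m.Joined Dᶜ x w}` is infinite, there is `x' ∈ C`, `x' ∉ B` with `{w | m.Joined S x' w}` infinite.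
`B` and `m.ballDarts x₀ (r + 1)` are finite (`ballDarts_finite`), so `C \ B` is infinite. For every `w ∉ B` there is
`φ w ∈ m.ballDarts x₀ (r + 1) \ B` with `m.Joined S w (φ w)`: take a path from `w` to `x₀` (`hc`) and its first step which enters `B`; it is
a `k`-step because `B` is a `VSet` (`vset_ballDarts`), from `φ w` to `m.k (φ w) ∈ B`, so `φ w ∈ m.ballDarts x₀ (r + 1)` (`ballDarts_k`, `k_k`).
`φ` maps the infinite set `C \ B` into a finite set, so one of its fibres is infinite (`Set.Infinite.exists_ne_map_eq...`,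
`Set.Finite.biUnion`/contradiction: if all fibres were finite the set would be finite): there is `x'` with infinitely many `w ∈ C \ B`,
`φ w = x'`. Then `m.Joined S x' w` for these `w` (symmetric), and `x'` is joined to `w ∈ C` in `S ⊆ Dᶜ`, so `x' ∈ C`.
Apply the claim to `x`, `y`, `z`: the points `x', y', z'` are pairwise not joined in `S` (otherwise `x`, `y` would be joined in `Dᶜ`).
`p = ![x', y', z']`.
-/

set_option autoImplicit false

namespace UIPQ

private theorem twoInf_enter {X : Type} (m : CMap X) (x₀ : X) (r R : ℕ) :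
    ∀ w ∈ m.ballDarts x₀ (r + R), w ∉ m.ballDarts x₀ r →
      ∃ u ∈ m.ballDarts x₀ (r + 1), u ∉ m.ballDarts x₀ r ∧ m.Joined (m.ballDarts x₀ r)ᶜ w u := by
  have hV : m.VSet (m.ballDarts x₀ r)ᶜ := fun x => not_congr (ballDarts_r)
  induction R with
  | zero => exact fun w hw hw' => absurd hw hw'
  | succ R ih =>
    intro w hw hw'
    rcases hw with hw | ⟨z, hz, hzw⟩
    · exact ih w hw hw'
    · by_cases hzB : z ∈ m.ballDarts x₀ r
      · exact ⟨w, (ballDarts_vert hzw).1 (ballDarts_k hzB), hw', CMap.Joined.refl m _ w⟩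
      · obtain ⟨u, hu, hu', hj⟩ := ih z hz hzB
        have hwk : m.Joined (m.ballDarts x₀ r)ᶜ w (m.k z) := joined_vert hV hw' hzw.symm
        have hkz : m.k z ∈ (m.ballDarts x₀ r)ᶜ := hwk.mem hw'
        exact ⟨u, hu, hu', (hwk.trans (joined_k (m := m) (show z ∈ (m.ballDarts x₀ r)ᶜ from hzB)
          hkz).symm).trans hj⟩

private theorem twoInf_claim {X : Type} (m : CMap X) (x₀ : X) (hc : m.Connected) (hm : m.LocFinite)
    {D : Set X} {r : ℕ} (hD : D ⊆ m.ballDarts x₀ r) {x : X}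
    (hx : {w | m.Joined Dᶜ x w}.Infinite) :
    ∃ x', x' ∉ m.ballDarts x₀ r ∧ m.Joined Dᶜ x x' ∧
      {w | m.Joined (m.ballDarts x₀ r)ᶜ x' w}.Infinite := by
  by_contra hcon
  have h1 : ∀ x', x' ∉ m.ballDarts x₀ r → m.Joined Dᶜ x x' →
      {w | m.Joined (m.ballDarts x₀ r)ᶜ x' w}.Finite := by
    intro x' h2 h3
    by_contra h4
    exact hcon ⟨x', h2, h3, h4⟩
  apply hx
  have hfin : ((m.ballDarts x₀ r) ∪ ⋃ u ∈ {u | u ∈ m.ballDarts x₀ (r + 1) ∧
      u ∉ m.ballDarts x₀ r ∧ m.Joined Dᶜ x u}, {w | m.Joined (m.ballDarts x₀ r)ᶜ u w}).Finite := by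
    refine (ballDarts_finite hm x₀ r).union ?_
    refine Set.Finite.biUnion ?_ ?_
    · exact (ballDarts_finite hm x₀ (r + 1)).subset fun u hu => hu.1
    · rintro u ⟨_, h2, h3⟩
      exact h1 u h2 h3
  refine hfin.subset ?_
  intro w hw
  by_cases hwB : w ∈ m.ballDarts x₀ r
  · exact Or.inl hwB
  · right
    obtain ⟨R, hR⟩ := exists_ballDarts hc x₀ w
    obtain ⟨u, hu, hu', hj⟩ := twoInf_enter m x₀ r R w
      (ballDarts_mono m x₀ (Nat.le_add_left R r) hR) hwB
    have hsub : (m.ballDarts x₀ r)ᶜ ⊆ Dᶜ := Set.compl_subset_compl.2 hD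
    have h5 : m.Joined Dᶜ x u := CMap.Joined.trans hw (hj.mono hsub)
    simp only [Set.mem_iUnion]
    exact ⟨u, ⟨hu, hu', h5⟩, hj.symm⟩

private theorem twoInf_sub {X : Type} (m : CMap X) (x₀ : X) (hc : m.Connected) {D : Set X}
    (hD : D.Finite) : ∃ r, D ⊆ m.ballDarts x₀ r := by
  choose R hR using fun x => exists_ballDarts (m := m) hc x₀ x
  obtain ⟨r, hr⟩ := (hD.image R).bddAbove
  exact ⟨r, fun x hx => ballDarts_mono m x₀ (hr ⟨x, hx, rfl⟩) (hR x)⟩

theorem big3inf_of_not_twoEnds {X : Type} (m : CMap X) (x₀ : X) (hc : m.Connected) (hm : m.LocFinite)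
    (h : ¬ m.TwoEnds) : ∃ r : ℕ, m.Big3inf x₀ r := by
  unfold CMap.TwoEnds at h
  push Not at h
  obtain ⟨D, hD, _, x, y, z, _, _, _, ix, iy, iz, nxy, nxz, nyz⟩ := h
  obtain ⟨r, hr⟩ := twoInf_sub m x₀ hc hD
  refine ⟨r, ?_⟩
  have hq : ∀ a : Fin 3, {w | m.Joined Dᶜ ((![x, y, z] : Fin 3 → X) a) w}.Infinite := by
    intro a
    fin_cases a
    · exact ix
    · exact iy
    · exact iz
  have hq2 : ∀ a b : Fin 3, a ≠ b → ¬ m.Joined Dᶜ ((![x, y, z] : Fin 3 → X) a)
      ((![x, y, z] : Fin 3 → X) b) := by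
    intro a b hab
    fin_cases a <;> fin_cases b
    · exact absurd rfl hab
    · exact nxy
    · exact nxz
    · exact fun h => nxy h.symm
    · exact absurd rfl hab
    · exact nyz
    · exact fun h => nxz h.symm
    · exact fun h => nyz h.symm
    · exact absurd rfl hab
  choose p hp1 hp2 hp3 using fun a : Fin 3 => twoInf_claim m x₀ hc hm hr (hq a)
  refine ⟨p, hp1, ?_, hp3⟩
  intro a b hab hj
  refine hq2 a b hab ?_
  have hsub : (m.ballDarts x₀ r)ᶜ ⊆ Dᶜ := Set.compl_subset_compl.2 hr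
  exact ((hp2 a).trans (hj.mono hsub)).trans (hp2 b).symm

end UIPQ
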