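import Pool.Agent.Lib.UIPQ.C.Iso
import Pool.Agent.Lib.UIPQ.A.Cut

/-!
# TransG: an even set of edges in a ball is a cut of the finite quadrangulation with the same ball (est. 180 lines)

PROOF. `e` = the ball isomorphism of radius `R + 4`. Let `B = m.ballDarts x₀ R`, `B' = m'.ballDarts x₀' R`; `e` maps `B` onto
`B'` bijectively (`h.mono`). Define `G' : X' → ZMod 2`: for `x' ∈ B'`, `G' x' = G x` for the unique `x ∈ B` with `e x = x'`;
`G' x' = 0` for `x' ∉ B'`. (E.g. with `Function.invFunOn e B`.) So `G' (e x) = G x` for all `x ∈ m.ballDarts x₀ (R + 4)`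
(for `x ∉ B` both are `0`: `e x ∉ B'` by `BIso.ball`, and `G x = 0` by `hs`).
(1) `G' ∘ m'.k = G'`: if `G' x' ≠ 0` then `x' = e x`, `x ∈ B`, `G x ≠ 0`, so `G (m.k x) ≠ 0`, `m.k x ∈ B`, `m'.k x' = e (m.k x)`
(`BIso.k_eq`) and `G' (m'.k x') = G (m.k x) = G x`. Symmetrically (apply this to `m'.k x'`), both are zero or both equal.
(2) face sums: `orbSum m'.f G' x' = G' x' + G' (f' x') + G' (f'^2 x') + G' (f'^3 x')`, because `f'` has minimal period `4` at `x'`
(`hq.face4`): the darts `y` with `m'.f.SameCycle x' y` are exactly the four distinct `f'^i x'`, `i < 4`. If one of these four darts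
is in `B'`, say `f'^i x' = e x`, `x ∈ B`, then the face of `x'` is `{f'^j (e x) | j < 4}` and `f'^j (e x) = e (f^j x)` for `j ≤ 3`
(`BIso.f_eq`, `ballDarts_f`: `f^j x ∈ ballDarts (R + j)`), so the sum is `G x + G (f x) + G (f (f x)) + G (f (f (f x))) = 0`.
(The sum over a face does not depend on the starting dart: `orbSum` is the same for all darts of the face; so apply the four term
formula to `e x` instead of `x'`.) If none is in `B'` the sum is `0`.
(3) `m'` is planar: `⟨hq.conn, hq.euler⟩ : m'.Planar`. `cut_form` gives `c'`.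
-/

set_option autoImplicit false

namespace UIPQ

private theorem orbSum_same {X' : Type} [Fintype X'] (σ : Equiv.Perm X') (G : X' → ZMod 2) {x y : X'}
    (h : σ.SameCycle x y) : orbSum σ G x = orbSum σ G y := by
  classical
  unfold orbSum
  apply Finset.sum_congr _ fun _ _ => rfl
  ext z
  simp only [Finset.mem_filter, Finset.mem_univ, true_and]
  exact ⟨fun h' => h.symm.trans h', fun h' => h.trans h'⟩

private theorem orbSum_four {X' : Type} [Fintype X'] (σ : Equiv.Perm X') (G : X' → ZMod 2) {x : X'}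
    (h : Function.minimalPeriod σ x = 4) :
    orbSum σ G x = G x + G (σ x) + G (σ (σ x)) + G (σ (σ (σ x))) := by
  classical
  have h4 : (σ ^ (4 : ℤ)) x = x := by
    have := Function.iterate_minimalPeriod (f := σ) (x := x)
    rw [h] at this
    exact this
  have hset : Finset.univ.filter (fun y => σ.SameCycle x y) =
      (Finset.range 4).image (fun i => σ^[i] x) := by
    ext y
    simp only [Finset.mem_filter, Finset.mem_univ, true_and, Finset.mem_image, Finset.mem_range]
    constructor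
    · rintro ⟨i, rfl⟩
      refine ⟨(i % 4).toNat, by omega, ?_⟩
      have h1 : ((σ ^ (4 : ℤ)) ^ (i / 4)) x = x :=
        Equiv.Perm.zpow_apply_eq_self_of_apply_eq_self h4 _
      have h2 : i = ((i % 4).toNat : ℤ) + 4 * (i / 4) := by omega
      conv_rhs => rw [h2, zpow_add, zpow_mul, Equiv.Perm.mul_apply, h1]
      rw [zpow_natCast, Equiv.Perm.iterate_eq_pow]
    · rintro ⟨i, _, rfl⟩
      exact ⟨i, by rw [zpow_natCast, Equiv.Perm.iterate_eq_pow]⟩
  unfold orbSum
  have hcong : ∀ s : Finset X', s = (Finset.range 4).image (fun i => σ^[i] x) →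
      ∑ y ∈ s, G y = G x + G (σ x) + G (σ (σ x)) + G (σ (σ (σ x))) := by
    rintro s rfl
    rw [Finset.sum_image]
    · simp [Finset.sum_range_succ]
    · intro i hi j hj hij
      have hinj := Function.iterate_injOn_Iio_minimalPeriod (f := σ) (x := x)
      rw [h] at hinj
      exact hinj (by simpa using hi) (by simpa using hj) hij
  exact hcong _ (by rw [← hset])

theorem transG {X X' : Type} [Fintype X'] {m : CMap X} {m' : CMap X'} {x₀ : X} {x₀' : X'} {R : ℕ}
    {e : X → X'} (hq : m'.IsQuad) (h : BIso (R + 4) m x₀ m' x₀' e) (G : X → ZMod 2)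
    (hs : Function.support G ⊆ m.ballDarts x₀ R) (hk : ∀ x, G (m.k x) = G x)
    (hf : ∀ x, G x + G (m.f x) + G (m.f (m.f x)) + G (m.f (m.f (m.f x))) = 0) :
    ∃ c' : X' → ZMod 2, (∀ x, c' (m'.r x) = c' x) ∧
      (∀ x ∈ m.ballDarts x₀ (R + 4), G x = c' (e x) + c' (m'.k (e x))) ∧
      ∀ x', x' ∉ m'.ballDarts x₀' R → c' (m'.k x') = c' x' := by
  classical
  have : Nonempty X := ⟨x₀⟩
  have hR : R ≤ R + 4 := by omega
  have hB := (h.mono hR).bij
  have hinv := hB.invOn_invFunOn
  set G' : X' → ZMod 2 := fun x' => if x' ∈ m'.ballDarts x₀' R then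
    G (Function.invFunOn e (m.ballDarts x₀ R) x') else 0 with hG'
  have hG0 : ∀ x', x' ∉ m'.ballDarts x₀' R → G' x' = 0 := fun x' hx' => if_neg hx'
  have hG : ∀ x ∈ m.ballDarts x₀ (R + 4), G' (e x) = G x := by
    intro x hx
    by_cases hx' : x ∈ m.ballDarts x₀ R
    · have h1 : e x ∈ m'.ballDarts x₀' R := (h.ball hR hx).1 hx'
      simp only [hG']
      rw [if_pos h1, hinv.1 hx']
    · rw [hG0 _ fun h1 => hx' ((h.ball hR hx).2 h1)]
      by_contra hne
      exact hx' (hs (Ne.symm hne))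
  have hk1 : ∀ x' ∈ m'.ballDarts x₀' R, G' (m'.k x') = G' x' := by
    intro x' hx'
    obtain ⟨x, hx, rfl⟩ := hB.surjOn hx'
    have h1 := ballDarts_mono m x₀ hR hx
    have h2 := ballDarts_mono m x₀ (show R + 1 ≤ R + 4 by omega) (ballDarts_k hx)
    rw [← h.k_eq h1 h2, hG _ h2, hG _ h1, hk]
  have hk' : ∀ x', G' (m'.k x') = G' x' := by
    intro x'
    by_cases h1 : x' ∈ m'.ballDarts x₀' R
    · exact hk1 x' h1
    · by_cases h2 : m'.k x' ∈ m'.ballDarts x₀' R
      · have := hk1 _ h2
        rw [m'.k_k] at this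
        exact this.symm
      · rw [hG0 _ h1, hG0 _ h2]
  have hf' : ∀ x', orbSum m'.f G' x' = 0 := by
    intro x'
    by_cases hz : ∃ y', m'.f.SameCycle x' y' ∧ G' y' ≠ 0
    · obtain ⟨y', hy1, hy2⟩ := hz
      have hyB : y' ∈ m'.ballDarts x₀' R := by
        by_contra hne
        exact hy2 (hG0 _ hne)
      obtain ⟨x, hx, rfl⟩ := hB.surjOn hyB
      rw [orbSum_same _ _ hy1, orbSum_four _ _ (hq.face4 _)]
      have b1 := ballDarts_f hx
      have b2 := ballDarts_f b1
      have b3 := ballDarts_f b2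
      have e1 := h.f_eq (j := R) (by omega) hx
      have e2 := h.f_eq (j := R + 1) (by omega) b1
      have e3 := h.f_eq (j := R + 1 + 1) (by omega) b2
      rw [← e1, ← e2, ← e3, hG _ (ballDarts_mono m x₀ hR hx),
        hG _ (ballDarts_mono m x₀ (show R + 1 ≤ R + 4 by omega) b1),
        hG _ (ballDarts_mono m x₀ (show R + 1 + 1 ≤ R + 4 by omega) b2),
        hG _ (ballDarts_mono m x₀ (show R + 1 + 1 + 1 ≤ R + 4 by omega) b3)]
      exact hf x
    · unfold orbSum
      apply Finset.sum_eq_zero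
      intro y hy
      simp only [Finset.mem_filter, Finset.mem_univ, true_and] at hy
      by_contra hne
      exact hz ⟨y, hy, hne⟩
  obtain ⟨c', hc1, hc2⟩ := cut_form m' ⟨hq.conn, hq.euler⟩ G' hk' hf'
  refine ⟨c', hc1, fun x hx => ?_, fun x' hx' => ?_⟩
  · rw [← hG x hx, hc2]
  · have h1 := hc2 x'
    rw [hG0 _ hx'] at h1
    exact (CharTwo.add_eq_zero.1 h1.symm).symm

end UIPQ
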