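import Pool.Agent.Lib.UIPQ.C.Big
import Pool.Agent.Lib.UIPQ.C.TransG

/-!
# TwoLoc: three infinite components are seen in a ball (est. 220 lines)

PROOF. Write `BD j = m.ballDarts x₀ j`, `S = (BD r)ᶜ`, `p` as in `Big3inf`, `C a = {w | m.Joined S (p a) w}` (a subset of `S`, since
`p a ∈ S`; it is a set of vertices: `vert` equal implies joined, `joined_vert`, and `S` is a `VSet`: `vset_ballDarts`).
(1) For every `a` there is `u a ∈ C a ∩ BD (r + 1)`: take a path from `p a` to `x₀` (`hc`; steps `k`, `r`, inverses), its first step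
that enters `BD r`; this step is not an `r`-step because `BD r` is a `VSet`, so it is a `k`-step from `u a ∈ C a` to `m.k (u a) ∈ BD r`, and
`u a = m.k (m.k (u a)) ∈ BD (r + 1)` (`ballDarts_k`).
(2) For every `w ∈ C a` there is `R` with `m.Joined (S ∩ BD R) (p a) w` (induction on the path, `exists_ballDarts`, monotonicity). Choose `K`
elements of the infinite set `C a` (`Set.Infinite.exists_subset_card_eq`) and take `R ≥ r + 5` so large that for all `a` (three values)
these `K` elements and `u a` are joined to `p a` in `S ∩ BD R`.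
(3) Let `BallIso R m x₀ m' x₀'`, with `e : BIso R` (`ballIso_iff`), `BD' j = m'.ballDarts x₀' j`, `S' = (BD' r)ᶜ`. By `BIso.joined` and
`BIso.ball`: `e '' (S ∩ BD R) ⊆ S'`, so `e (p a)` is joined in `S'` to `e (u a)` and to the images of the `K` elements (different, `e` is
injective on `BD R`). So the components of the `e (p a)` in `S'` have at least `K` elements, and `e (p a) ∉ BD' r`.
(4) They are pairwise different: let `a ≠ b` and suppose `m'.Joined S' (e (p a)) (e (p b))`; then `m'.Joined S' (e (u a)) (e (u b))`.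
Let `χ x = 1` if `x ∈ C a`, `0` otherwise (in `ZMod 2`, classical), and `G x = χ x + χ (m.k x)`. `G (m.k x) = G x`. `χ (m.r x) = χ x` so
`χ (m.k x) = χ (m.f x)` and the face condition holds by `h4` (each term occurs twice). If `G x ≠ 0` then exactly one of `x`, `m.k x` is in
`C a`, the other one is not in `S` (otherwise both would be joined), so one of them is in `BD r` and `x ∈ BD (r + 1)`. Apply
`transG` with radius `r + 1` and the restriction of `e` (`BIso.mono`): `c'` with `c' ∘ m'.r = c'`, `G x = c' (e x) + c' (m'.k (e x))` for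
`x ∈ BD (r + 5)`, and `c' (m'.k x') = c' x'` for `x' ∉ BD' (r + 1)`.
 (i) `c' (e x) = χ x + c' x₀'` for all `x ∈ BD (r + 5)`: the function `x ↦ c' (e x) + χ x` does not change along `r` steps and `k` steps inside
 `BD (r + 5)` (`BIso.r`, `BIso.k_eq`, and the formula for `G`), so it is constant along `joined_ball`, with value `c' x₀' + χ x₀ = c' x₀'` at `x₀`
 (`x₀ ∈ BD r`, so `x₀ ∉ C a`).
 (ii) so `c' (e (u a)) = 1 + c' x₀'` and `c' (e (u b)) = c' x₀'` (`u b ∈ C b` is not in `C a`).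
 (iii) `c' (m'.k z) = c' z` if `z ∈ S'` and `m'.k z ∈ S'`: clear if `z ∉ BD' (r + 1)`; otherwise `z = e x` with `x ∈ BD (r + 1)`, `x ∉ BD r`,
 `m.k x ∈ BD (r + 2)`, `e (m.k x) = m'.k z ∉ BD' r`, so `m.k x ∉ BD r`; `x` and `m.k x` are in `S` and joined, so `χ x = χ (m.k x)` and
 `0 = G x = c' z + c' (m'.k z)`.
 By (iii) and `CMap.Joined.const`: `c' (e (u a)) = c' (e (u b))`, which contradicts (ii).
-/

set_option autoImplicit false

namespace UIPQ

private theorem two_exit {X : Type} (m : CMap X) (hc : m.Connected) {S : Set X} (hS : m.VSet S)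
    {p x₀ : X} (hp : p ∈ S) (hx : x₀ ∉ S) : ∃ u, m.Joined S p u ∧ m.k u ∉ S := by
  by_contra hne
  have hall : ∀ u, m.Joined S p u → m.k u ∈ S := by
    intro u hu
    by_contra hk
    exact hne ⟨u, hu, hk⟩
  have key : ∀ a b, Relation.EqvGen (fun a b => b = m.r a ∨ b = m.k a) a b →
      (m.Joined S p a ↔ m.Joined S p b) := by
    intro a b h
    induction h with
    | rel a b h =>
      rcases h with rfl | rfl
      · constructor
        · intro h
          have ha := h.mem hp
          exact h.trans (joined_r ha ((hS a).2 ha))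
        · intro h
          have ha := h.mem hp
          exact h.trans (joined_r ((hS a).1 ha) ha).symm
      · constructor
        · intro h
          exact h.trans (joined_k (h.mem hp) (hall a h))
        · intro h
          have ha := hall _ h
          have h1 := h.mem hp
          have h2 := joined_k h1 ha
          rw [m.k_k] at h2
          exact h.trans h2
    | refl a => exact Iff.rfl
    | symm a b _ ih => exact ih.symm
    | trans a b c _ _ ih1 ih2 => exact ih1.trans ih2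
  have h1 := (key p x₀ (hc p x₀)).1 (CMap.Joined.refl m S p)
  exact hx (h1.mem hp)

private theorem joined_bounded {X : Type} {m : CMap X} (hc : m.Connected) (x₀ : X) {S : Set X}
    {p w : X} (h : m.Joined S p w) : ∃ R, m.Joined (S ∩ m.ballDarts x₀ R) p w := by
  unfold CMap.Joined at h
  induction h with
  | refl => exact ⟨0, CMap.Joined.refl m _ p⟩
  | @tail b c _ h ih =>
    obtain ⟨h1, h2, h3⟩ := h
    obtain ⟨R1, hR1⟩ := ih
    obtain ⟨R2, hR2⟩ := exists_ballDarts hc x₀ b
    obtain ⟨R3, hR3⟩ := exists_ballDarts hc x₀ c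
    refine ⟨max R1 (max R2 R3), ?_⟩
    have hm : m.Joined (S ∩ m.ballDarts x₀ (max R1 (max R2 R3))) p b :=
      hR1.mono (Set.inter_subset_inter_right S (ballDarts_mono m x₀ (le_max_left _ _)))
    refine hm.trans (Relation.ReflTransGen.single ⟨⟨h1, ?_⟩, ⟨h2, ?_⟩, h3⟩)
    · exact ballDarts_mono m x₀ ((le_max_left _ _).trans (le_max_right _ _)) hR2
    · exact ballDarts_mono m x₀ ((le_max_right _ _).trans (le_max_right _ _)) hR3

private theorem joined_bounded_finset {X : Type} {m : CMap X} (hc : m.Connected) (x₀ : X)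
    {S : Set X} {p : X} (T : Finset X) (h : ∀ w ∈ T, m.Joined S p w) :
    ∃ R, ∀ w ∈ T, m.Joined (S ∩ m.ballDarts x₀ R) p w := by
  classical
  have h1 : ∀ w : X, ∃ R, w ∈ T → m.Joined (S ∩ m.ballDarts x₀ R) p w := by
    intro w
    by_cases hw : w ∈ T
    · obtain ⟨R, hR⟩ := joined_bounded hc x₀ (h w hw)
      exact ⟨R, fun _ => hR⟩
    · exact ⟨0, fun h => absurd h hw⟩
  choose Rf hRf using h1
  refine ⟨T.sup Rf, fun w hw => ?_⟩
  exact (hRf w hw).mono (Set.inter_subset_inter_right S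
    (ballDarts_mono m x₀ (Finset.le_sup (f := Rf) hw)))

private theorem sep_core {X X' : Type} [Fintype X'] {m : CMap X} {m' : CMap X'} {x₀ : X}
    {x₀' : X'} {r : ℕ} {e : X → X'} (h4 : ∀ x, m.f (m.f (m.f (m.f x))) = x) (hq : m'.IsQuad)
    (he : BIso (r + 1 + 4) m x₀ m' x₀' e) {pa ua ub : X} (hpS : pa ∈ (m.ballDarts x₀ r)ᶜ)
    (hpa : m.Joined (m.ballDarts x₀ r)ᶜ pa ua)
    (hua : ua ∈ m.ballDarts x₀ (r + 1)) (hub : ub ∈ m.ballDarts x₀ (r + 1))
    (hab : ¬ m.Joined (m.ballDarts x₀ r)ᶜ pa ub) :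
    ¬ m'.Joined (m'.ballDarts x₀' r)ᶜ (e ua) (e ub) := by
  classical
  intro hj
  set S : Set X := (m.ballDarts x₀ r)ᶜ with hSdef
  have hVS : m.VSet S := fun x => not_congr (vset_ballDarts m x₀ r x)
  set χ : X → ZMod 2 := fun x => if m.Joined S pa x then 1 else 0 with hχ
  have hχr : ∀ x, χ (m.r x) = χ x := by
    intro x
    have hiff : m.Joined S pa (m.r x) ↔ m.Joined S pa x := by
      constructor
      · intro h
        have hx := h.mem hpS
        exact h.trans (joined_r ((hVS x).1 hx) hx).symm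
      · intro h
        have hx := h.mem hpS
        exact h.trans (joined_r hx ((hVS x).2 hx))
    simp only [hχ, hiff]
  have hχk : ∀ x, x ∈ S → m.k x ∈ S → χ (m.k x) = χ x := by
    intro x hx hkx
    have hiff : m.Joined S pa (m.k x) ↔ m.Joined S pa x :=
      ⟨fun h => h.trans (joined_k hx hkx).symm, fun h => h.trans (joined_k hx hkx)⟩
    simp only [hχ, hiff]
  have two : ∀ a : ZMod 2, a + a = 0 := by decide
  have hk : ∀ x, χ (m.k x) + χ (m.k (m.k x)) = χ x + χ (m.k x) := by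
    intro x
    rw [m.k_k, add_comm]
  have hfk : ∀ x, χ (m.k x) = χ (m.f x) := by
    intro x
    rw [CMap.f_apply, hχr]
  have hf : ∀ x, (χ x + χ (m.k x)) + (χ (m.f x) + χ (m.k (m.f x))) +
      (χ (m.f (m.f x)) + χ (m.k (m.f (m.f x)))) +
      (χ (m.f (m.f (m.f x))) + χ (m.k (m.f (m.f (m.f x))))) = 0 := by
    intro x
    rw [hfk, hfk, hfk, hfk, h4]
    have h8 : ∀ a b c d : ZMod 2, (a + b) + (b + c) + (c + d) + (d + a) = 0 := by decide
    exact h8 _ _ _ _
  have hs : Function.support (fun x => χ x + χ (m.k x)) ⊆ m.ballDarts x₀ (r + 1) := by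
    intro x hx
    by_contra hne
    apply hx
    have h1 : x ∈ S := fun h => hne (ballDarts_succ m x₀ r h)
    have h2 : m.k x ∈ S := fun h => hne (by
      have h3 := ballDarts_k h
      rwa [m.k_k] at h3)
    change χ x + χ (m.k x) = 0
    rw [hχk x h1 h2, two]
  obtain ⟨c', hc1, hc2, hc3⟩ := transG (R := r + 1) hq he (fun x => χ x + χ (m.k x)) hs hk hf
  have key : ∀ x, m.Joined (m.ballDarts x₀ (r + 1 + 4)) x₀ x →
      c' (e x) + χ x = c' (e x₀) + χ x₀ := by
    intro x hx
    unfold CMap.Joined at hx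
    induction hx with
    | refl => rfl
    | @tail b c _ hbc ih =>
      obtain ⟨h1, h2, h3⟩ := hbc
      rw [← ih]
      rcases h3 with rfl | rfl | h3
      · rw [he.k_eq h1 h2]
        have h5 := hc2 b h1
        have h6 : ∀ a b c d : ZMod 2, a + b = c + d → d + b = c + a := by decide
        exact h6 _ _ _ _ h5
      · rw [he.r _ h1, hc1, hχr]
      · rw [h3, he.r _ h2, hc1, hχr]
  have hx0 : χ x₀ = 0 := by
    have hn : ¬ m.Joined S pa x₀ := fun h => (h.mem hpS) (self_mem_ballDarts m x₀ r)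
    simp only [hχ, if_neg hn]
  have hA := key ua (joined_ball (ballDarts_mono m x₀ (by omega) hua))
  have hB := key ub (joined_ball (ballDarts_mono m x₀ (by omega) hub))
  have hχa : χ ua = 1 := by simp only [hχ, if_pos hpa]
  have hχb : χ ub = 0 := by simp only [hχ, if_neg hab]
  have hconst : ∀ z ∈ (m'.ballDarts x₀' r)ᶜ, m'.k z ∈ (m'.ballDarts x₀' r)ᶜ →
      c' (m'.k z) = c' z := by
    intro z hz hkz
    by_cases hz1 : z ∈ m'.ballDarts x₀' (r + 1)
    · obtain ⟨x, hx, rfl⟩ := (he.mono (show r + 1 ≤ r + 1 + 4 by omega)).bij.surjOn hz1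
      have hx5 := ballDarts_mono m x₀ (show r + 1 ≤ r + 1 + 4 by omega) hx
      have hkx5 := ballDarts_mono m x₀ (show r + 1 + 1 ≤ r + 1 + 4 by omega) (ballDarts_k hx)
      have h1 : x ∈ S := fun h => hz ((he.ball (by omega) hx5).1 h)
      have h2 : m.k x ∈ S := fun h => hkz (by
        rw [← he.k_eq hx5 hkx5]
        exact (he.ball (by omega) hkx5).1 h)
      have h3 := hc2 x hx5
      rw [hχk x h1 h2, two] at h3
      have h6 : ∀ a b : ZMod 2, 0 = a + b → b = a := by decide
      exact h6 _ _ h3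
    · exact hc3 z hz1
  have hfin := hj.const hc1 hconst
  rw [hχa, hx0] at hA
  rw [hχb, hx0, hfin] at hB
  rw [← hB] at hA
  have h7 : ∀ a : ZMod 2, a + 1 ≠ a + 0 := by decide
  exact h7 _ hA

theorem big3_local {X : Type} (m : CMap X) (x₀ : X) (hc : m.Connected) (hm : m.LocFinite)
    (h4 : ∀ x, m.f (m.f (m.f (m.f x))) = x) (r K : ℕ) (h : m.Big3inf x₀ r) :
    ∃ R : ℕ, ∀ (X' : Type) [Fintype X'] (m' : CMap X') (x₀' : X'), m'.IsQuad →
      BallIso R m x₀ m' x₀' → m'.Big3 x₀' r K := by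
  classical
  obtain ⟨p, hp1, hp2, hp3⟩ := h
  have hVS : m.VSet (m.ballDarts x₀ r)ᶜ := fun x => not_congr (vset_ballDarts m x₀ r x)
  have hx₀ : x₀ ∉ (m.ballDarts x₀ r)ᶜ := fun h => h (self_mem_ballDarts m x₀ r)
  have h1 : ∀ a, ∃ u, m.Joined (m.ballDarts x₀ r)ᶜ (p a) u ∧ u ∈ m.ballDarts x₀ (r + 1) := by
    intro a
    obtain ⟨u, hu1, hu2⟩ := two_exit m hc hVS (hp1 a) hx₀
    refine ⟨u, hu1, ?_⟩
    have h3 : m.k u ∈ m.ballDarts x₀ r := not_not.1 hu2
    have h5 := ballDarts_k h3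
    rwa [m.k_k] at h5
  choose u hu1 hu2 using h1
  have h2 : ∀ a, ∃ T : Finset X, (↑T ⊆ {w | m.Joined (m.ballDarts x₀ r)ᶜ (p a) w}) ∧ T.card = K :=
    fun a => (hp3 a).exists_subset_card_eq K
  choose T hT1 hT2 using h2
  have h3 : ∀ a, ∃ R, ∀ w ∈ insert (u a) (T a),
      m.Joined ((m.ballDarts x₀ r)ᶜ ∩ m.ballDarts x₀ R) (p a) w := by
    intro a
    apply joined_bounded_finset hc x₀
    intro w hw
    rcases Finset.mem_insert.1 hw with rfl | hw
    · exact hu1 a
    · exact hT1 a hw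
  choose Rf hRf using h3
  obtain ⟨R, hle, hr5⟩ : ∃ R : ℕ, (∀ a, Rf a ≤ R) ∧ r + 1 + 4 ≤ R :=
    ⟨Finset.univ.sup Rf + (r + 1 + 4), fun a =>
      (Finset.le_sup (f := Rf) (Finset.mem_univ a)).trans (Nat.le_add_right _ _),
      Nat.le_add_left _ _⟩
  refine ⟨R, fun X' _ m' x₀' hq hB => ?_⟩
  obtain ⟨e, he⟩ := ballIso_iff.1 hB
  have hT : ∀ a, ∀ w ∈ insert (u a) (T a),
      m.Joined ((m.ballDarts x₀ r)ᶜ ∩ m.ballDarts x₀ R) (p a) w := fun a w hw =>
    (hRf a w hw).mono (Set.inter_subset_inter_right _ (ballDarts_mono m x₀ (hle a)))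
  have himg : e '' ((m.ballDarts x₀ r)ᶜ ∩ m.ballDarts x₀ R) ⊆ (m'.ballDarts x₀' r)ᶜ := by
    rintro _ ⟨x, ⟨hx1, hx2⟩, rfl⟩ hx3
    exact hx1 ((he.ball (by omega) hx2).2 hx3)
  have hj : ∀ a, ∀ w ∈ insert (u a) (T a), m'.Joined (m'.ballDarts x₀' r)ᶜ (e (p a)) (e w) :=
    fun a w hw => (he.joined Set.inter_subset_right (hT a w hw)).mono himg
  have huR : ∀ a, u a ∈ (m.ballDarts x₀ r)ᶜ ∩ m.ballDarts x₀ R := fun a =>
    ⟨(hu1 a).mem (hp1 a), ballDarts_mono m x₀ (by omega) (hu2 a)⟩
  have hpR : ∀ a, p a ∈ (m.ballDarts x₀ r)ᶜ ∩ m.ballDarts x₀ R := fun a =>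
    (hT a (u a) (Finset.mem_insert_self _ _)).symm.mem (huR a)
  refine ⟨fun a => e (p a), fun a hx => ?_, fun a b hab hjab => ?_, fun a => ?_⟩
  · exact hp1 a ((he.ball (by omega) (hpR a).2).2 hx)
  · have h5 : m'.Joined (m'.ballDarts x₀' r)ᶜ (e (u a)) (e (u b)) :=
      (hj a (u a) (Finset.mem_insert_self _ _)).symm.trans
        (hjab.trans (hj b (u b) (Finset.mem_insert_self _ _)))
    refine sep_core h4 hq (he.mono hr5) (hp1 a) (hu1 a) (hu2 a) (hu2 b) ?_ h5
    intro h6
    exact hp2 a b hab (h6.trans (hu1 b).symm)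
  · have hinj : Set.InjOn e (↑(T a) : Set X) := by
      apply he.bij.injOn.mono
      intro w hw
      exact ((hT a w (Finset.mem_insert_of_mem hw)).mem (hpR a)).2
    have hcard : ((T a).image e).card = K := by
      rw [Finset.card_image_of_injOn hinj, hT2]
    rw [← hcard, ← Set.ncard_coe_finset]
    apply Set.ncard_le_ncard _ (Set.toFinite _)
    intro w' hw'
    obtain ⟨w, hw, rfl⟩ := Finset.mem_image.1 (Finset.mem_coe.1 hw')
    exact hj a w (Finset.mem_insert_of_mem hw)

end UIPQ
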