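import Pool.Agent.Lib.UIPQ.C.Face
import Pool.Agent.Lib.UIPQ.C.Root
import Pool.Agent.Lib.UIPQ.C.TwoLoc
import Pool.Agent.Lib.UIPQ.C.TwoInf

/-!
# Two: the uniform infinite planar quadrangulation has at most two ends (est. 180 lines)

PROOF of `unif_big3`: `unifProb_le` with `b = K0 / K`: the event is invariant under renaming (`big3_iso` with `e = σ`,
`bIso_relabel`; the balls correspond, so they have the same cardinality: `(m.relabel σ).ballDarts (σ x) (2 * r) =
σ '' (m.ballDarts x (2 * r))` from `(bIso_relabel _ m x σ).bij.image_eq`, `Set.ncard_image_of_injective`), and `big3_count` with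
`Nat.card (Fin (4 * n + 4)) = 4 * n + 4` (quadrangulations are connected), divided by `K > 0`.
PROOF of `two_null`: fix `r`, `K0`, and let `A = {ω | good ω ∧ (M ω).Big3inf 0 r ∧ ((M ω).ballDarts 0 (2 * r)).ncard ≤ K0}`, where `good ω` means
connected, locally finite, all faces have four sides. For `K ≥ 1` and `R` let `A K R` be the set of the `ω ∈ A` such that for every `n` and
`m ∈ Quads n`, `BallIso R (M ω) 0 m 0` implies `m.Big3 0 r K`. `A K R` is monotone in `R` (`BIso.mono`) and `A = ⋃ R, A K R`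
(`big3_local`). `transfer` with radius `max R (2 * r)` and `E n m x = (m.Big3 x r K ∧ (m.ballDarts x (2 * r)).ncard ≤ K0)`: the balls of radius
`2 r` have the same number of darts (`BIso.mono`, `BijOn`, `Set.ncard_image_of_injOn`), so `P (A K R) ≤ ENNReal.ofReal (K0 / K)` by `unif_big3`
(for all `n`, so frequently). By monotone continuity (`Monotone.measure_iUnion` / `Directed.measure_iUnion`, no measurability needed)
`P A ≤ ENNReal.ofReal (K0 / K)` for every `K ≥ 1`, so `P A = 0` (limit `K → ∞`).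
PROOF of `ae_twoEnds`: almost every `ω` is good (`h.conn`, `h.locFinite`, `ae_face`) and in none of the countably many null sets
`A` (`r`, `K0`); if `(M ω)` did not satisfy `TwoEnds`, `big3inf_of_not_twoEnds` gives `r`, and `K0` is the number of darts of the ball.
-/

set_option autoImplicit false

namespace UIPQ

open MeasureTheory Filter

theorem unif_big3 (n r K K0 : ℕ) (hK : 0 < K) :
    unifProb n (fun m x => m.Big3 x r K ∧ (m.ballDarts x (2 * r)).ncard ≤ K0) ≤ (K0 : ℝ) / K := by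
  refine unifProb_le n _ ?_ _ (by positivity) ?_
  · rintro σ m x ⟨h1, h2⟩
    refine ⟨big3_iso σ (fun R => bIso_relabel R m x σ) (fun x => (relabel_r m σ x).symm)
      (fun x => (relabel_k m σ x).symm) h1, ?_⟩
    have h3 := (bIso_relabel (2 * r) m x σ).bij.image_eq
    rw [← h3, Set.ncard_image_of_injective _ σ.injective]
    exact h2
  · intro m hm
    have h1 := big3_count m hm.conn r K K0
    have h2 : Nat.card (Fin (4 * n + 4)) = 4 * n + 4 := by simp
    rw [h2] at h1
    have hK' : (0 : ℝ) < K := by exact_mod_cast hK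
    have h3 : (K : ℝ) * ({x | m.Big3 x r K ∧ (m.ballDarts x (2 * r)).ncard ≤ K0}.ncard : ℝ) ≤
        K0 * (4 * n + 4) := by exact_mod_cast h1
    rw [div_mul_eq_mul_div, le_div_iff₀ hK', mul_comm]
    exact h3

variable {Ω : Type} [MeasurableSpace Ω] {P : Measure Ω} [IsProbabilityMeasure P] {M : Ω → CMap ℕ}

theorem two_null (h : IsUIPQ P M) (r K0 : ℕ) :
    P {ω | ((M ω).Connected ∧ (M ω).LocFinite ∧
      ∀ x, (M ω).f ((M ω).f ((M ω).f ((M ω).f x))) = x) ∧ (M ω).Big3inf 0 r ∧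
      ((M ω).ballDarts 0 (2 * r)).ncard ≤ K0} = 0 := by
  set A : Set Ω := {ω | ((M ω).Connected ∧ (M ω).LocFinite ∧
      ∀ x, (M ω).f ((M ω).f ((M ω).f ((M ω).f x))) = x) ∧ (M ω).Big3inf 0 r ∧
      ((M ω).ballDarts 0 (2 * r)).ncard ≤ K0} with hA
  have key : ∀ K : ℕ, 0 < K → P A ≤ ENNReal.ofReal ((K0 : ℝ) / K) := by
    intro K hK
    set B : ℕ → Set Ω := fun R => {ω | ω ∈ A ∧ ∀ n, ∀ m ∈ Quads n,
      BallIso R (M ω) 0 m 0 → m.Big3 0 r K} with hB
    have hmono : Monotone B := by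
      intro R R' hR ω hω
      refine ⟨hω.1, fun n m hm hb => hω.2 n m hm ?_⟩
      obtain ⟨e, he⟩ := ballIso_iff.1 hb
      exact ballIso_iff.2 ⟨e, he.mono hR⟩
    have hsub : A ⊆ ⋃ R, B R := by
      intro ω hω
      obtain ⟨R, hR⟩ := big3_local (M ω) 0 hω.1.1 hω.1.2.1 hω.1.2.2 r K hω.2.1
      exact Set.mem_iUnion.2 ⟨R, hω, fun n m hm hb => hR _ m 0 hm hb⟩
    have hle : ∀ R, P (B R) ≤ ENNReal.ofReal ((K0 : ℝ) / K) := by
      intro R
      refine transfer h (max R (2 * r)) (B R) (fun ω hω => hω.1.1.2.1)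
        (fun n m x => m.Big3 x r K ∧ (m.ballDarts x (2 * r)).ncard ≤ K0) ?_ _
        (Frequently.of_forall fun n => unif_big3 n r K K0 hK)
      intro ω hω n m hm hb
      obtain ⟨e, he⟩ := ballIso_iff.1 hb
      refine ⟨hω.2 n m hm (ballIso_iff.2 ⟨e, he.mono (le_max_left _ _)⟩), ?_⟩
      have h1 := (he.mono (le_max_right R (2 * r))).bij
      rw [← h1.image_eq, Set.ncard_image_of_injOn h1.injOn]
      exact hω.1.2.2
    calc P A ≤ P (⋃ R, B R) := measure_mono hsub
      _ = ⨆ R, P (B R) := hmono.measure_iUnion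
      _ ≤ _ := iSup_le hle
  have hlim : Tendsto (fun K : ℕ => ENNReal.ofReal ((K0 : ℝ) / K)) atTop (nhds 0) := by
    have := ENNReal.tendsto_ofReal (tendsto_const_div_atTop_nhds_zero_nat (K0 : ℝ))
    rwa [ENNReal.ofReal_zero] at this
  have h0 : P A ≤ 0 := ge_of_tendsto hlim ((eventually_gt_atTop 0).mono fun K hK => key K hK)
  exact le_antisymm h0 bot_le

theorem ae_twoEnds (h : IsUIPQ P M) : ∀ᵐ ω ∂P, (M ω).TwoEnds := by
  have h4 : ∀ᵐ ω ∂P, ∀ r K0 : ℕ, ω ∉ {ω | ((M ω).Connected ∧ (M ω).LocFinite ∧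
      ∀ x, (M ω).f ((M ω).f ((M ω).f ((M ω).f x))) = x) ∧ (M ω).Big3inf 0 r ∧
      ((M ω).ballDarts 0 (2 * r)).ncard ≤ K0} := by
    rw [ae_all_iff]
    intro r
    rw [ae_all_iff]
    intro K0
    exact measure_eq_zero_iff_ae_notMem.1 (two_null h r K0)
  filter_upwards [h.conn, h.locFinite, ae_face h, h4] with ω a b c d
  by_contra hne
  obtain ⟨r, hr⟩ := big3inf_of_not_twoEnds (M ω) 0 a b hne
  exact d r _ ⟨⟨a, b, c⟩, hr, le_rfl⟩

end UIPQ
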