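import Pool.Agent.Lib.UIPQ.D.Main
import Pool.Agent.Lib.UIPQ.C.Face
import Pool.Agent.Lib.UIPQ.C.Glue
import Pool.Agent.Lib.UIPQ.C.Two
import Pool.Agent.Lib.UIPQ.C.Cond

/-!
# C/Final: the theorem
-/

namespace UIPQ

open MeasureTheory

theorem final_thm {Ω : Type} [MeasurableSpace Ω] (P : Measure Ω) [IsProbabilityMeasure P]
    (M : Ω → CMap ℕ) (h : IsUIPQ P M) :
    ∀ᵐ ω ∂P, ∀ (hm : (M ω).LocFinite) (k : ℝ), FiniteDimensional ℝ (polyHarmonic (M ω) 0 hm k) := by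
  filter_upwards [h.conn, ae_face h, ae_locCut h, ae_twoEnds h, ae_lowCond h] with ω h1 h2 h3 h4 h5
  intro hm k
  obtain ⟨c, hc, hR⟩ := h5
  exact det_thm (M ω) 0 h1 hm h2 (PL_of_loc (M ω) 0 h1 h3) h4 c hc hR k

end UIPQ
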