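import Pool.Agent.Lib.UIPQ.C.Transfer
import Pool.Agent.Lib.UIPQ.C.TransG

/-!
# PLae: almost surely the even sets of edges are cuts inside all balls (est. 80 lines)

PROOF. There are countably many pairs `(G, R)` with `G` finitely supported (use `G : ℕ →₀ ZMod 2`, which is a countable type;
a function with finite support is the coercion of `Finsupp.ofSupportFinite`). So (`ae_all_iff`) fix `G : ℕ →₀ ZMod 2` and `R`.
The set `A` of all `ω` with `(M ω).LocFinite`, `support G ⊆ ballDarts 0 R`, `G ∘ k = G`, the face condition, and `¬ LocCut` is null by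
`transfer_zero` with radius `R + 4`: for `m ∈ Quads n` with `BIso (R+4) (M ω) 0 m 0 e`, `transG` gives `c'`; let `c = c' ∘ e`.
For `x ∈ ballDarts 0 R`: `c (r x) = c' (e (r x)) = c' (m.r (e x)) = c x`; if also `k x ∈ ballDarts 0 R` then
`G x = c' (e x) + c' (m.k (e x)) = c x + c (k x)` (`BIso.k_eq`). So `LocCut` holds: contradiction.
-/

set_option autoImplicit false

namespace UIPQ

open MeasureTheory Filter

/-- `G` is a cut inside the ball of radius `R` -/
def CMap.LocCut {X : Type} (m : CMap X) (x₀ : X) (R : ℕ) (G : X → ZMod 2) : Prop :=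
  ∃ c : X → ZMod 2, (∀ x ∈ m.ballDarts x₀ R, c (m.r x) = c x) ∧
    ∀ x ∈ m.ballDarts x₀ R, m.k x ∈ m.ballDarts x₀ R → G x = c x + c (m.k x)

/-- all even sets of edges are cuts inside all balls -/
def CMap.AllLocCut {X : Type} (m : CMap X) (x₀ : X) : Prop :=
  ∀ G : X → ZMod 2, (Function.support G).Finite → ∀ R : ℕ, Function.support G ⊆ m.ballDarts x₀ R →
    (∀ x, G (m.k x) = G x) →
    (∀ x, G x + G (m.f x) + G (m.f (m.f x)) + G (m.f (m.f (m.f x))) = 0) → m.LocCut x₀ R G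

variable {Ω : Type} [MeasurableSpace Ω] {P : Measure Ω} [IsProbabilityMeasure P] {M : Ω → CMap ℕ}

theorem ae_locCut (h : IsUIPQ P M) : ∀ᵐ ω ∂P, (M ω).AllLocCut 0 := by
  have key : ∀ (G : ℕ →₀ ZMod 2) (R : ℕ), P {ω | (M ω).LocFinite ∧
      Function.support G ⊆ (M ω).ballDarts 0 R ∧ (∀ x, G ((M ω).k x) = G x) ∧
      (∀ x, G x + G ((M ω).f x) + G ((M ω).f ((M ω).f x)) +
        G ((M ω).f ((M ω).f ((M ω).f x))) = 0) ∧ ¬ (M ω).LocCut 0 R G} = 0 := by
    intro G R
    refine transfer_zero h (R + 4) _ (fun ω hω => hω.1) ?_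
    rintro ω ⟨-, hs, hk, hf, hne⟩ n m hm hiso
    obtain ⟨e, he⟩ := ballIso_iff.1 hiso
    apply hne
    obtain ⟨c', hr', hG, -⟩ := transG hm he G hs hk hf
    have hmono := ballDarts_mono (M ω) 0 (show R ≤ R + 4 by omega)
    refine ⟨fun x => c' (e x), fun x hx => ?_, fun x hx hkx => ?_⟩
    · show c' (e ((M ω).r x)) = c' (e x)
      rw [he.r x (hmono hx), hr']
    · show G x = c' (e x) + c' (e ((M ω).k x))
      rw [hG x (hmono hx), he.k_eq (hmono hx) (hmono hkx)]
  have hall : ∀ᵐ ω ∂P, ∀ (G : ℕ →₀ ZMod 2) (R : ℕ), ω ∉ {ω | (M ω).LocFinite ∧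
      Function.support G ⊆ (M ω).ballDarts 0 R ∧ (∀ x, G ((M ω).k x) = G x) ∧
      (∀ x, G x + G ((M ω).f x) + G ((M ω).f ((M ω).f x)) +
        G ((M ω).f ((M ω).f ((M ω).f x))) = 0) ∧ ¬ (M ω).LocCut 0 R G} :=
    ae_all_iff.2 fun G => ae_all_iff.2 fun R => measure_eq_zero_iff_ae_notMem.1 (key G R)
  filter_upwards [h.locFinite, hall] with ω hl ha
  intro G hfin R hs hk hf
  by_contra hne
  exact ha (Finsupp.ofSupportFinite G hfin) R ⟨hl, hs, hk, hf, hne⟩

end UIPQ
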